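import Pool.Agent.H57.AVG.C1b
import Pool.Agent.H64.LV.Cls
import Pool.Agent.H71.CDX.Cdl

/-!
# Several moved places with affine charts

`dv_aff`: the own path over an affine chart has no coefficients of the orders `≥ 2`. `coeA`: the
coefficients from the jets of the orders `0`, `1`. `ac_A`, `va_A`: the digits of the own paths of the
moved places are few bits given their jets. `mvR`: the places `r₀, …, v`.
-/

set_option autoImplicit false

namespace Pool.C1V35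

open Finset Real MvPolynomial
open Pool.Agent.H49.Ent Pool.Agent.H32.Dense Pool.STK Pool.KA Pool.KSAT Pool.K2S Pool.PB Pool.S6C
open Pool.GEN Pool.CHT Pool.CHX Pool.ISO Pool.LA91 Pool.AVG71 Pool.AVG5 Pool.D2F2 Pool.AVG57
open Pool.PB.Trl (rt rt_mem t_rt)
open Pool.D2R (hgt gnh GrdE chs)
open Pool.KVA (MI)
open Pool.LV64

variable {m J : ℕ}

/-- The moved places `r₀, …, v`. -/
def mvR (r₀ v : ℕ) (j : Fin (v + 1 - r₀)) : ℕ := r₀ + j

theorem mvR_lo {r₀ v : ℕ} (j : Fin (v + 1 - r₀)) : r₀ ≤ mvR r₀ v j := Nat.le_add_right _ _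

theorem mvR_hi {r₀ v : ℕ} (j : Fin (v + 1 - r₀)) : mvR r₀ v j ≤ v := by
  have := j.2
  unfold mvR
  omega

theorem mvR_ex {r₀ v l : ℕ} (h0 : r₀ ≤ l) (h1 : l ≤ v) : ∃ j : Fin (v + 1 - r₀), mvR r₀ v j = l :=
  ⟨⟨l - r₀, by omega⟩, by unfold mvR; dsimp only; omega⟩

theorem mvR_inj (r₀ v : ℕ) : Function.Injective (mvR r₀ v) := by
  intro i j h
  unfold mvR at h
  exact Fin.ext (by omega)

/-- **The own path over an affine chart** has no coefficients of the orders `≥ 2`. -/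
theorem dv_aff (F : Fam m J) {c : ℕ → Fin m} {w W : ℕ} (hwW : w ≤ W) (hW : W ≤ J)
    {H : LnT F → ℕ → MvPolynomial (Option (Fin m)) ℝ} {l : ℕ}
    (hA : ∀ s, (H s l).totalDegree ≤ 1) (ω : F.Ω) {b : ℕ} (hb : 2 ≤ b) :
    (dv W (fun s (_ : Fin m) => H (upw w W s) l) (c l) (slam F W ω)).coeff b = 0 := by
  obtain ⟨P, hP⟩ : ∃ P, P = dv W (fun s (_ : Fin m) => H (upw w W s) l) (c l) (slam F W ω) :=
    ⟨_, rfl⟩
  have h1 : (Polynomial.taylor (rt F W ω) P).natDegree ≤ 1 := by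
    rw [Polynomial.natDegree_le_iff_coeff_eq_zero]
    intro j hj
    have h2 := ojet_tay F hW ω (c l) (fun s (_ : Fin m) => H (upw w W s) l) j
    rw [← hP, upw_slam F hwW hW] at h2
    rw [h2, Pool.CDX.ojet_aff (hA _) hj ω, zero_div]
  rw [Polynomial.natDegree_taylor] at h1
  rw [← hP]
  exact Polynomial.coeff_eq_zero_of_natDegree_lt (by omega)

section

variable {F : Fam m J} {c : ℕ → Fin m} {w W K D : ℕ}
  {H : LnT F → ℕ → MvPolynomial (Option (Fin m)) ℝ}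

/-- **The coefficients of the own path of a moved place** with affine charts, from its jets. -/
theorem coeA (hwW : w ≤ W) (hW : W ≤ J) (hH : ∀ s l, (H s l).totalDegree ≤ D) (hK : D + 1 ≤ K)
    {l : ℕ} (hA : ∀ s, (H s l).totalDegree ≤ 1) {g : ℕ} {ω ν : F.Ω} (hT : F.T ω = F.T ν)
    {δ₀ δ₁ : ℝ}
    (h0 : 2 ^ g * |ojet F (c l) 0 (H (slam F w ω) l) ω - ojet F (c l) 0 (H (slam F w ν) l) ν| ≤
      δ₀)
    (h1 : 2 ^ g * (|ojet F (c l) 1 (H (slam F w ω) l) ω - ojet F (c l) 1 (H (slam F w ν) l) ν| /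
      2 ^ W) ≤ δ₁) :
    (∀ b, 1 ≤ b → |(Polynomial.C (2 ^ g) * dv W (fun s (_ : Fin m) => H (upw w W s) l) (c l)
        (slam F W ω)).coeff b - (Polynomial.C (2 ^ g) * dv W (fun s (_ : Fin m) =>
          H (upw w W s) l) (c l) (slam F W ν)).coeff b| ≤
        (K + 1) * 2 ^ K * δ₁) ∧
    |(Polynomial.C (2 ^ g) * dv W (fun s (_ : Fin m) => H (upw w W s) l) (c l)
        (slam F W ω)).coeff 0 - (Polynomial.C (2 ^ g) * dv W (fun s (_ : Fin m) =>
          H (upw w W s) l) (c l) (slam F W ν)).coeff 0| ≤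
        (K + 1) * 2 ^ K * (δ₀ + δ₁) := by
  have p2 : (0 : ℝ) < 2 ^ g := by positivity
  have pW : (0 : ℝ) < 2 ^ W := by positivity
  have hδ₁ : 0 ≤ δ₁ := le_trans (by positivity) h1
  have hδ₀ : 0 ≤ δ₀ := le_trans (by positivity) h0
  have hdeg : ∀ s, (dv W (fun s (_ : Fin m) => H (upw w W s) l) (c l) s).natDegree ≤ K :=
    fun s => (natDegree_dv W (G := fun s (_ : Fin m) => H (upw w W s) l)
      (fun s _ => hH _ _) _ _).trans hK
  obtain ⟨P, hP⟩ : ∃ P : Polynomial ℝ, P = Polynomial.C (2 ^ g) *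
      dv W (fun s (_ : Fin m) => H (upw w W s) l) (c l) (slam F W ω) - Polynomial.C (2 ^ g) *
      dv W (fun s (_ : Fin m) => H (upw w W s) l) (c l) (slam F W ν) := ⟨_, rfl⟩
  have hPd : P.natDegree ≤ K := by
    rw [hP]
    exact (Polynomial.natDegree_sub_le _ _).trans (max_le
      ((Polynomial.natDegree_C_mul_le _ _).trans (hdeg _))
      ((Polynomial.natDegree_C_mul_le _ _).trans (hdeg _)))
  have hPc : ∀ b, (Polynomial.C (2 ^ g) * dv W (fun s (_ : Fin m) => H (upw w W s) l) (c l)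
        (slam F W ω)).coeff b - (Polynomial.C (2 ^ g) * dv W (fun s (_ : Fin m) =>
          H (upw w W s) l) (c l) (slam F W ν)).coeff b = P.coeff b := fun b => by
    rw [hP, Polynomial.coeff_sub]
  simp only [hPc]
  have hb2 : ∀ b ≥ 2, |P.coeff b| ≤ 0 := by
    intro b hb
    rw [← hPc, Polynomial.coeff_C_mul, Polynomial.coeff_C_mul, dv_aff F hwW hW hA ω hb,
      dv_aff F hwW hW hA ν hb, mul_zero, sub_zero, abs_zero]
  have ht : rt F W ω = rt F W ν := rt_of F hW hT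
  have hj : ∀ j, |(Polynomial.taylor (rt F W ω) P).coeff j| = 2 ^ g *
      (|ojet F (c l) j (H (slam F w ω) l) ω - ojet F (c l) j (H (slam F w ν) l) ν| /
        ((j.factorial : ℝ) * (2 ^ W) ^ j)) := by
    intro j
    have j1 := ojet_tay F hW ω (c l) (fun s (_ : Fin m) => H (upw w W s) l) j
    have j2 := ojet_tay F hW ν (c l) (fun s (_ : Fin m) => H (upw w W s) l) j
    rw [upw_slam F hwW hW] at j1 j2
    rw [← ht] at j2
    have p5 : (0 : ℝ) < (j.factorial : ℝ) * (2 ^ W) ^ j := by positivity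
    rw [hP, map_sub, Polynomial.coeff_sub, Polynomial.taylor_mul, Polynomial.taylor_mul,
      Polynomial.taylor_C, Polynomial.coeff_C_mul, Polynomial.coeff_C_mul, j1, j2, ← mul_sub,
      ← sub_div, abs_mul, abs_of_pos p2, abs_div, abs_of_pos p5]
  have hs : |rt F W ω| ≤ 1 := by
    rw [abs_of_nonneg (rt_mem F W ω).1]
    exact (rt_mem F W ω).2
  have hj0 : |(Polynomial.taylor (rt F W ω) P).coeff 0| ≤ δ₀ := by
    rw [hj 0]
    simpa using h0
  have hj1 : |(Polynomial.taylor (rt F W ω) P).coeff 1| ≤ δ₁ := by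
    rw [hj 1]
    simpa using h1
  have pK : (0 : ℝ) ≤ (K + 1) * 2 ^ K := by positivity
  constructor
  · intro b hb
    refine (tay_hi (a₀ := 2) (a₁ := 1) hPd hs le_rfl hδ₁ hb2 (fun a a1 a2 => ?_) hb).trans ?_
    · have : a = 1 := by omega
      subst this
      exact hj1
    · exact mul_le_mul_of_nonneg_left (by linarith) pK
  · refine (tay_hi (a₀ := 2) (a₁ := 0) (δ := δ₀ + δ₁) hPd hs le_rfl (by linarith) hb2
      (fun a _ a2 => ?_) le_rfl).trans ?_
    · have : a = 0 ∨ a = 1 := by omega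
      rcases this with h5 | h5
      · subst h5
        linarith
      · subst h5
        linarith
    · exact mul_le_mul_of_nonneg_left (by linarith) pK

variable {k C q X mm : ℕ} {mv : Fin k → ℕ} {tg qt Xt : Fin C → ℕ} {γ : ℕ → ℕ}
  {gg : F.Ω → Fin C → Fin k → ℝ} {ζ : Type} {z : F.Ω → ζ} {p : F.Ω → ℝ}

/-- The jets of one moved place. -/
theorem jetm_one {N : Fin k → ℕ → ℝ} {ω ν : F.Ω}
    (h : jetm F c mv w H N ω = jetm F c mv w H N ν) (j : Fin k) :
    jt1 F c (mv j) w H (N j) ω = jt1 F c (mv j) w H (N j) ν := by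
  funext i
  obtain ⟨i, a⟩ := i
  exact congrFun h (j, a)

/-- **The field `ac`.** -/
theorem ac_A (hp : IsLaw p) (hwW : w ≤ W) (hW : W ≤ J) (hH : ∀ s l, (H s l).totalDegree ≤ D)
    (hK : D + 1 ≤ K) (hA : ∀ (j : Fin k) (s : LnT F), (H s (mv j)).totalDegree ≤ 1)
    (hz : ∀ ω ν, 0 < p ω → 0 < p ν → z ω = z ν → F.T1 W ω = F.T1 W ν) {N : Fin k → ℕ → ℝ}
    (h0 : ∀ j, ((γ (mv j) + q + (X + mm) : ℕ) : ℝ) ≤ N j 0 * J)
    (h1 : ∀ j, ((γ (mv j) + q + (X + mm) : ℕ) : ℝ) ≤ N j 1 * J + W) :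
    CH p ((adV F c mv tg qt Xt q w W X mm γ gg H z).ac K)
      (fun ω => (jetm F c mv w H N ω, (rt F W ω, z ω))) ≤ k * cL K := by
  have hp0 := hp.nonneg
  obtain ⟨d, hd⟩ : ∃ d, d = adV F c mv tg qt Xt q w W X mm γ gg H z := ⟨_, rfl⟩
  have hX : d.X = X := by rw [hd]; rfl
  have hm : d.m = mm := by rw [hd]; rfl
  have hA' : ∀ o j, d.A o j = Polynomial.C (2 ^ (γ (mv j) + q)) *
      dv W (fun s (_ : Fin m) => H (upw w W s) (mv j)) (c (mv j)) (slam F W o) := fun o j => by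
    rw [hd]; rfl
  rw [← hd]
  refine CH_pi hp0 _ k (d.ac K) fun j => ?_
  have key : ∀ ω ν, 0 < p ω → 0 < p ν → (jetm F c mv w H N ω, (rt F W ω, z ω)) =
      (jetm F c mv w H N ν, (rt F W ν, z ν)) →
      ∀ b, |(d.ac K ω j b : ℝ) - d.ac K ν j b| ≤ 3 * ((K + 1) * 2 ^ K) + 1 := by
    intro ω ν hω hν e b
    simp only [Prod.mk.injEq] at e
    obtain ⟨e1, e2, e3⟩ := e
    obtain ⟨t1, -⟩ := time_eq F hW (hz ω ν hω hν e3) e2
    obtain ⟨g0, g1⟩ := jt1_near (E₀ := X + mm) (E₁ := X + mm) (h0 j) (h1 j) (jetm_one e1 j)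
    obtain ⟨c1, c0⟩ := coeA (c := c) hwW hW hH hK (hA j) t1 g0 g1
    unfold VD.ac
    rw [hX, hm, hA', hA']
    have pX : (0 : ℝ) < 2 ^ (X + mm) := by positivity
    have pK : (0 : ℝ) ≤ (K + 1) * 2 ^ K := by positivity
    refine floor_near' ?_
    rw [← mul_sub, abs_mul, abs_of_pos pX]
    rcases Nat.eq_zero_or_pos (b : ℕ) with h | h
    · rw [h]
      calc _ ≤ (2 : ℝ) ^ (X + mm) * ((K + 1) * 2 ^ K * (1 / 2 ^ (X + mm) + 1 / 2 ^ (X + mm))) :=
            mul_le_mul_of_nonneg_left c0 pX.le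
        _ = 2 * ((K + 1) * 2 ^ K) := by field_simp; norm_num
        _ ≤ _ := by linarith
    · calc _ ≤ (2 : ℝ) ^ (X + mm) * ((K + 1) * 2 ^ K * (1 / 2 ^ (X + mm))) :=
            mul_le_mul_of_nonneg_left (c1 b h) pX.le
        _ = (K + 1) * 2 ^ K := by field_simp
        _ ≤ _ := by linarith
  have h2 := ch_vec hp.nonneg (fun ω => (jetm F c mv w H N ω, (rt F W ω, z ω))) (K + 1)
    (fun ω => d.ac K ω j) (c := Real.log (2 * (3 * ((K + 1) * 2 ^ K) + 1) + 1)) fun b =>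
      CH_pair_int hp _ _ (by positivity) fun ω ν a a' e => key ω ν a a' e b
  push_cast at h2
  exact h2

/-- **The field `va`.** -/
theorem va_A (hp : IsLaw p) (hwW : w ≤ W) (hW : W ≤ J) (hH : ∀ s l, (H s l).totalDegree ≤ D)
    (hK : D + 1 ≤ K) (hA : ∀ (j : Fin k) (s : LnT F), (H s (mv j)).totalDegree ≤ 1)
    (hz : ∀ ω ν, 0 < p ω → 0 < p ν → z ω = z ν → F.T1 W ω = F.T1 W ν) {N : Fin k → ℕ → ℝ}
    (h0 : ∀ j, ((γ (mv j) + q : ℕ) : ℝ) ≤ N j 0 * J)
    (h1 : ∀ j, ((γ (mv j) + q + (X + mm) : ℕ) : ℝ) ≤ N j 1 * J + W) :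
    CH p (fun ω => ((adV F c mv tg qt Xt q w W X mm γ gg H z).v K ω).2)
      (fun ω => (jetm F c mv w H N ω, (rt F W ω, z ω))) ≤ k * cL K := by
  have hp0 := hp.nonneg
  obtain ⟨d, hd⟩ : ∃ d, d = adV F c mv tg qt Xt q w W X mm γ gg H z := ⟨_, rfl⟩
  have hX : d.X = X := by rw [hd]; rfl
  have hm : d.m = mm := by rw [hd]; rfl
  have hA' : ∀ o j, d.A o j = Polynomial.C (2 ^ (γ (mv j) + q)) *
      dv W (fun s (_ : Fin m) => H (upw w W s) (mv j)) (c (mv j)) (slam F W o) := fun o j => by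
    rw [hd]; rfl
  rw [← hd]
  obtain ⟨f, hf⟩ : ∃ f : F.Ω → Fin k → Fin (K + 1) → ℤ, f = fun ω j => Fin.cons
    (d.ac K ω j 0 / 2 ^ (d.X + d.m)) (fun a : Fin K => d.ac K ω j a.succ) := ⟨_, rfl⟩
  have h3 : CH p f (fun ω => (jetm F c mv w H N ω, (rt F W ω, z ω))) ≤ k * cL K := by
    refine CH_pi hp0 _ k f fun j => ?_
    have key : ∀ ω ν, 0 < p ω → 0 < p ν → (jetm F c mv w H N ω, (rt F W ω, z ω)) =
        (jetm F c mv w H N ν, (rt F W ν, z ν)) →
        ∀ b, |(f ω j b : ℝ) - f ν j b| ≤ 3 * ((K + 1) * 2 ^ K) + 1 := by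
      intro ω ν hω hν e b
      simp only [Prod.mk.injEq] at e
      obtain ⟨e1, e2, e3⟩ := e
      obtain ⟨t1, -⟩ := time_eq F hW (hz ω ν hω hν e3) e2
      obtain ⟨g0, g1⟩ := jt1_near (E₀ := 0) (E₁ := X + mm) (by simpa using h0 j) (h1 j)
        (jetm_one e1 j)
      obtain ⟨c1, c0⟩ := coeA (c := c) hwW hW hH hK (hA j) t1 g0 g1
      have pX : (0 : ℝ) < 2 ^ (X + mm) := by positivity
      have pK : (0 : ℝ) ≤ (K + 1) * 2 ^ K := by positivity
      have h6 : (1 : ℝ) / 2 ^ (X + mm) ≤ 1 := by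
        rw [div_le_one pX]
        exact one_le_pow₀ (by norm_num)
      rw [hf]
      refine Fin.cases ?_ (fun a => ?_) b
      · simp only [Fin.cons_zero]
        have e4 : ∀ o : F.Ω, d.ac K o j 0 / 2 ^ (d.X + d.m) = ⌊(d.A o j).coeff 0⌋ := fun o => by
          unfold VD.ac
          exact floor_div_self _ _
        rw [e4, e4, hA', hA']
        refine floor_near' (c0.trans ?_)
        rw [pow_zero, div_one]
        have h8 := mul_le_mul_of_nonneg_left (show (1 : ℝ) + 1 / 2 ^ (X + mm) ≤ 3 by linarith) pK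
        linarith
      · simp only [Fin.cons_succ]
        unfold VD.ac
        rw [hX, hm, hA', hA']
        refine floor_near' ?_
        rw [← mul_sub, abs_mul, abs_of_pos pX]
        have h1 : 1 ≤ (a.succ : ℕ) := by rw [Fin.val_succ]; omega
        calc _ ≤ (2 : ℝ) ^ (X + mm) * ((K + 1) * 2 ^ K * (1 / 2 ^ (X + mm))) :=
              mul_le_mul_of_nonneg_left (c1 _ h1) pX.le
          _ = (K + 1) * 2 ^ K := by field_simp
          _ ≤ _ := by linarith
    have h2 := ch_vec hp.nonneg (fun ω => (jetm F c mv w H N ω, (rt F W ω, z ω))) (K + 1)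
      (fun ω => f ω j) (c := Real.log (2 * (3 * ((K + 1) * 2 ^ K) + 1) + 1)) fun b =>
        CH_pair_int hp _ _ (by positivity) fun ω ν a a' e => key ω ν a a' e b
    push_cast at h2
    exact h2
  refine le_trans (CH_mono_left (X' := f) hp0 fun ω ν _ _ e => ?_) h3
  have e5 : f ω = f ν := (Prod.ext_iff.mp e).1
  unfold VD.v
  refine Prod.ext ?_ ?_
  · funext j a
    have := congrFun (congrFun e5 j) a.succ
    rw [hf] at this
    simpa using this
  · funext j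
    have := congrFun (congrFun e5 j) 0
    rw [hf] at this
    simpa using this

end

end Pool.C1V35
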