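import Pool.Agent.H35.C1V.Cvf
import Pool.Agent.H35.C1V.Pvf
import Pool.Agent.H57.AVG.C1h

/-!
# Closed gradients in a class, all places of the chain moved

`cv_cls`: the gradients of the target `v + 1` in the directions of the places `r₀, …, v` of the chain
are closed polynomials, on the events of the class, from the inputs `CvC`, if the charts of these
places have degree at most one. Their digits are few bits given the time and the far codes.
-/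

set_option autoImplicit false

namespace Pool.C1V35

open Finset Real MvPolynomial
open Pool.Agent.H49.Ent Pool.Agent.H32.Dense Pool.STK Pool.KA Pool.KSAT Pool.K2S Pool.PB Pool.S6C
open Pool.GEN Pool.CHT Pool.CHX Pool.ISO Pool.RCD Pool.LA91 Pool.AVG71 Pool.AVG5 Pool.D2F2
open Pool.AVG57
open Pool.AVG96 (jetQ prQ MIw)
open Pool.GRD (LbP)
open Pool.PB.Trl (rt rt_mem t_rt)
open Pool.D2R (hgt gnh GrdE chs)
open Pool.KVA (MI)
open Pool.KAF (rs Pr)
open Pool.FS21 (oth)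
open Pool.BFL (Pb)
open Pool.LV64

variable {m : ℕ} {γ : ∀ J : ℕ, Fam m J → Type}

theorem big_on (a : ℝ) {g : ℕ → ℝ} {r v : ℕ} (h : ∀ l, r ≤ l → l ≤ v → 0 < g l) :
    ∃ J₀ : ℕ, ∀ J : ℕ, J₀ ≤ J → ∀ l, r ≤ l → l ≤ v → a ≤ g l * J := by
  obtain ⟨J₀, h1⟩ := big_all a (g := fun l => if r ≤ l then g l else 1) v fun l hl => by
    split_ifs with h2
    · exact h l h2 hl
    · exact one_pos
  refine ⟨J₀, fun J hJ l l0 l1 => ?_⟩
  have h2 := h1 J hJ l l1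
  rwa [if_pos l0] at h2

theorem big_lt (a : ℝ) {g : ℕ → ℝ} {r : ℕ} (h : ∀ l < r, 0 < g l) :
    ∃ J₀ : ℕ, ∀ J : ℕ, J₀ ≤ J → ∀ l < r, a ≤ g l * J := by
  obtain ⟨J₀, h1⟩ := big_all a (g := fun l => if l < r then g l else 1) r fun l _ => by
    split_ifs with h2
    · exact h l h2
    · exact one_pos
  refine ⟨J₀, fun J hJ l l0 => ?_⟩
  have h2 := h1 J hJ l l0.le
  rwa [if_pos l0] at h2

/-! ### One event -/

section

variable {J : ℕ} {F : Fam m J} {c : ℕ → Fin m} {r₀ v K D W : ℕ}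
  {H : LnT F → ℕ → MvPolynomial (Option (Fin m)) ℝ} {p : F.Ω → ℝ}

/-- The near path of the base is few bits given the context. -/
theorem CvE.yfew {M : ℕ} {w : ℝ} {g : ℕ} {ζ ρ₁ ρ₂ υ : Type} {zw : F.Ω → ζ}
    {zj : F.Ω → ρ₁} {zx : F.Ω → ρ₂} {y : F.Ω → υ} {n n' nt : ℕ → ℝ} {Nt : ℝ} {nb : ℕ → ℝ}
    {Df Dn Dx Dd : ℕ → ℕ → ℝ} {Ef En : ℕ → ℝ} {Nv : ℕ → ℕ → ℝ} {η : ℝ}
    (E : CvE F c r₀ v K M w g H zw zj zx y p n n' nt Nt nb Df Dn Dx Dd Ef En Nv η)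
    (law : IsLaw p) (hw0 : 0 ≤ w) (wW : ⌊w * J⌋₊ ≤ W) (WJ : W ≤ J)
    (deg : ∀ s l, (H s l).totalDegree ≤ D) (DK : D + 1 ≤ K) :
    CH p y (fun ω => (rt F W ω, zxs F c 0 W zw (sdL F c r₀ ⌊w * J⌋₊ K H (fun l => ⌊n l * J⌋₊)
      (fun l => ⌊n' l * J⌋₊)) ω)) ≤ 2 * r₀ * cS K + η := by
  have h0 := law.nonneg
  have hwr : (⌊w * J⌋₊ : ℝ) ≤ w * J := Nat.floor_le (by positivity)
  refine CH_via h0 _ (jet2 F c ⌊w * J⌋₊ H 0 r₀ (nd n n' w)) ?_ E.yf fun ω ν _ _ e => ?_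
  · refine jet2_sd (nc := fun l => ⌊n l * J⌋₊) (nc' := fun l => ⌊n' l * J⌋₊) law (wW.trans WJ)
      deg DK le_rfl (fun l _ _ => ?_) (fun l _ _ => ?_) _ fun ω ν _ _ e => ?_
    · unfold nd
      rw [if_pos rfl]
      exact (Nat.lt_floor_add_one _).le
    · have h1 := (Nat.lt_floor_add_one (n' l * J)).le
      unfold nd
      rw [if_neg one_ne_zero]
      push_cast
      linarith
    · obtain ⟨e1, e2⟩ := Prod.ext_iff.mp e
      obtain ⟨e3, e4⟩ := AvL.eqz e2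
      exact ⟨(time_eq F WJ e3 e1).1, e4⟩
  · obtain ⟨e1, e2⟩ := Prod.ext_iff.mp e
    obtain ⟨e3, e4⟩ := Prod.ext_iff.mp e2
    obtain ⟨e5, e6⟩ := Prod.ext_iff.mp e4
    obtain ⟨e7, e8⟩ := AvL.eqz e4
    obtain ⟨e9, -⟩ := Prod.ext_iff.mp e6
    have e10 : F.Z ω = F.Z ν := (Prod.ext_iff.mp e9).1
    refine Prod.ext e1 (Prod.ext e5 ?_)
    exact Prod.ext (time_eq F WJ e7 e3).1 e10

/-- **The row** in the context of the average, for one law. -/
theorem row_evV {w : ℕ} {ζ υ : Type} {zw : F.Ω → ζ} {y : F.Ω → υ} {nc nc' : ℕ → ℕ} {A : Type}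
    {a : F.Ω → A} (hp : IsLaw p) {nb : ℕ → ℝ} {P₁ P₂ : ℝ} {N₁ N₂ : ℕ}
    (h1 : P₁ * J ≤ N₁) (h2 : (N₂ : ℝ) ≤ P₂ * J) :
    CH p (Mh F c (v + 1) w H N₂) (fun ω => ((Mh F c (v + 1) w H N₁ ω, a ω),
      (Vm F c (mvR r₀ v) w H (fun j => nb (mvR r₀ v j) * J) ω,
        (rt F W ω, zxs F c 0 W zw (sdL F c r₀ w K H nc nc') ω)))) ≤
      CH p (fun ω => ⌊(2 : ℝ) ^ (P₂ * J) * ojet F (c (v + 1)) 0 (H (slam F w ω) (v + 1)) ω⌋)
        (fun ω => (⌊(2 : ℝ) ^ (P₁ * J) * ojet F (c (v + 1)) 0 (H (slam F w ω) (v + 1)) ω⌋,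
          (jetM F c w H r₀ (v + 1) 0 (fun l _ => nb l) ω, (zw ω, y ω)))) +
      CH p y (fun ω => (rt F W ω, zxs F c 0 W zw (sdL F c r₀ w K H nc nc') ω)) +
        2 * Real.log (2 * 2 + 1) := by
  have h0 := hp.nonneg
  have key : ∀ {x x' s s' : ℝ}, 0 < s → 0 ≤ s' → s' ≤ s → ⌊s * x⌋ = ⌊s * x'⌋ →
      |((⌊s' * x⌋ : ℤ) : ℝ) - ⌊s' * x'⌋| ≤ 2 := by
    intro x x' s s' hs hs' hss e
    have g1 := near_of_floor hs e
    have g2 : |s' * x - s' * x'| ≤ 1 := by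
      rw [← mul_sub, abs_mul, abs_of_nonneg hs']
      calc s' * |x - x'| ≤ s * (1 / s) := mul_le_mul hss g1 (abs_nonneg _) hs.le
        _ = 1 := by field_simp
    have g3 := floor_near' g2
    linarith
  obtain ⟨W₀, hW₀⟩ : ∃ W₀ : F.Ω → (ℤ × A) × ((Fin (v + 1 - r₀) → ℤ) × (ℝ × (ζ × ((F.ζ × ℕ) ×
    ((Fin 0 → ℝ × ℝ) × (Fin (r₀ + 1) → (Fin (K + 1) → ℤ) × (Fin (K + 1) → ℤ))))))), W₀ =
    fun ω => ((Mh F c (v + 1) w H N₁ ω, a ω),
      (Vm F c (mvR r₀ v) w H (fun j => nb (mvR r₀ v j) * J) ω,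
        (rt F W ω, zxs F c 0 W zw (sdL F c r₀ w K H nc nc') ω))) := ⟨_, rfl⟩
  rw [← hW₀]
  -- the digits of the target, finer
  have b1 : CH p (Mh F c (v + 1) w H N₂)
      (fun ω => (⌊(2 : ℝ) ^ (P₂ * J) * ojet F (c (v + 1)) 0 (H (slam F w ω) (v + 1)) ω⌋, W₀ ω)) ≤
      Real.log (2 * 2 + 1) := by
    refine CH_pair_int hp _ _ (by norm_num) fun ω ν _ _ e => ?_
    have e1 := (Prod.ext_iff.mp e).1
    unfold Mh
    refine key (Real.rpow_pos_of_pos two_pos (P₂ * J)) (by positivity) ?_ e1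
    rw [← Real.rpow_natCast]
    exact Real.rpow_le_rpow_of_exponent_le one_le_two h2
  have b2 : CH p (fun ω => ⌊(2 : ℝ) ^ (P₁ * J) * ojet F (c (v + 1)) 0
      (H (slam F w ω) (v + 1)) ω⌋) W₀ ≤ Real.log (2 * 2 + 1) := by
    refine CH_pair_int hp _ _ (by norm_num) fun ω ν _ _ e => ?_
    rw [hW₀] at e
    have e1 := (Prod.ext_iff.mp (Prod.ext_iff.mp e).1).1
    have e2 : ⌊(2 : ℝ) ^ N₁ * ojet F (c (v + 1)) 0 (H (slam F w ω) (v + 1)) ω⌋ =
      ⌊(2 : ℝ) ^ N₁ * ojet F (c (v + 1)) 0 (H (slam F w ν) (v + 1)) ν⌋ := e1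
    refine key (s := (2 : ℝ) ^ N₁) (by positivity) (by positivity) ?_ e2
    rw [← Real.rpow_natCast]
    exact Real.rpow_le_rpow_of_exponent_le one_le_two h1
  -- the heights of the chain
  have hjm : ∀ ω ν, W₀ ω = W₀ ν → jetM F c w H r₀ (v + 1) 0 (fun l _ => nb l) ω =
      jetM F c w H r₀ (v + 1) 0 (fun l _ => nb l) ν := by
    intro ω ν e
    rw [hW₀] at e
    have e1 := (Prod.ext_iff.mp (Prod.ext_iff.mp e).2).1
    funext l j'
    unfold jetM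
    by_cases h : r₀ ≤ l ∧ l < v + 1 ∧ j' ≤ 0
    · rw [if_pos h, if_pos h]
      obtain ⟨j, hj⟩ := mvR_ex (v := v) h.1 (Nat.lt_succ_iff.1 h.2.1)
      subst hj
      have h3 : j' = 0 := by omega
      subst h3
      exact congrFun e1 j
    · rw [if_neg h, if_neg h]
  have b3 : CH p (jetM F c w H r₀ (v + 1) 0 (fun l _ => nb l)) W₀ = 0 :=
    CH_eq_zero h0 fun ω ν _ _ e => hjm ω ν e
  have b4 : CH p y W₀ ≤ CH p y (fun ω => (rt F W ω,
      zxs F c 0 W zw (sdL F c r₀ w K H nc nc') ω)) := by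
    refine CH_mono_cond h0 fun ω ν _ _ e => ?_
    rw [hW₀] at e
    exact (Prod.ext_iff.mp (Prod.ext_iff.mp e).2).2
  have c1 := CH_via h0 (Mh F c (v + 1) w H N₂) (fun ω => ⌊(2 : ℝ) ^ (P₂ * J) *
    ojet F (c (v + 1)) 0 (H (slam F w ω) (v + 1)) ω⌋) (W := W₀) le_rfl b1 fun _ _ _ _ e => e
  have c2 := CH_subadd h0 (jetM F c w H r₀ (v + 1) 0 (fun l _ => nb l)) y W₀
  have c3 := CH_subadd h0 (fun ω => ⌊(2 : ℝ) ^ (P₁ * J) * ojet F (c (v + 1)) 0
      (H (slam F w ω) (v + 1)) ω⌋) (fun ω => (jetM F c w H r₀ (v + 1) 0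
      (fun l _ => nb l) ω, y ω)) W₀
  have c4 := CH_via h0 (fun ω => ⌊(2 : ℝ) ^ (P₂ * J) *
    ojet F (c (v + 1)) 0 (H (slam F w ω) (v + 1)) ω⌋) (fun ω => (⌊(2 : ℝ) ^ (P₁ * J) *
    ojet F (c (v + 1)) 0 (H (slam F w ω) (v + 1)) ω⌋, (jetM F c w H r₀ (v + 1) 0
      (fun l _ => nb l) ω, y ω))) (W := W₀) (W' := fun ω =>
      (⌊(2 : ℝ) ^ (P₁ * J) * ojet F (c (v + 1)) 0 (H (slam F w ω) (v + 1)) ω⌋,
          (jetM F c w H r₀ (v + 1) 0 (fun l _ => nb l) ω,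
            (zw ω, y ω)))) le_rfl le_rfl (fun ω ν _ _ e => by
      obtain ⟨e1, e2⟩ := Prod.ext_iff.mp e
      obtain ⟨e3, e4⟩ := Prod.ext_iff.mp e1
      obtain ⟨e5, e6⟩ := Prod.ext_iff.mp e4
      have e2' : W₀ ω = W₀ ν := e2
      rw [hW₀] at e2'
      obtain ⟨-, e7⟩ := Prod.ext_iff.mp e2'
      obtain ⟨-, e8⟩ := Prod.ext_iff.mp e7
      obtain ⟨-, e9⟩ := Prod.ext_iff.mp e8
      have e10 : zw ω = zw ν := (Prod.ext_iff.mp e9).1
      exact Prod.ext e3 (Prod.ext e5 (Prod.ext e10 e6)))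
  linarith

/-- **The far codes**: the codes of the moved places, the codes of the target to `q` digits, the
record of the window and the codes of the base. -/
noncomputable def fcV (F : Fam m J) (c : ℕ → Fin m) (r₀ v w W q X mm K : ℕ) (gm : ℕ → ℕ)
    (H : LnT F → ℕ → MvPolynomial (Option (Fin m)) ℝ) {ζ : Type} (zw : F.Ω → ζ)
    (nc nc' : ℕ → ℕ) (ω : F.Ω) :=
  (adV F c (mvR r₀ v) (fun _ : Fin 1 => v + 1) (fun _ => q) (fun _ => X) q w W X mm gm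
    (fun _ _ _ => 0) H (zxs F c 0 W zw (sdL F c r₀ w K H nc nc'))).g K ω

end

/-! ### Numbers -/

/-- The constants of the gradient. -/
noncomputable def cGv (v K : ℕ) : ℝ :=
  cA K + (2 * (v + 1) + 3) * Pool.AVG5.cJ K + (v + 2) * Real.log 5 +
    Real.log (2 * (4 * (v + 1) + 2 * ((K + 1) * ((v + 1) + 1)) + 1) + 3) +
    (v + 2) * Real.log (8 * v + 10)

theorem cGv_nonneg (v K : ℕ) : 0 ≤ cGv v K := by
  have hv : (0 : ℝ) ≤ v := Nat.cast_nonneg v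
  have hK : (0 : ℝ) ≤ K := Nat.cast_nonneg K
  have p1 : 0 ≤ Real.log (5 : ℝ) := Real.log_nonneg (by norm_num)
  have p3 : 0 ≤ Real.log (2 * (4 * ((v : ℝ) + 1) + 2 * (((K : ℝ) + 1) * ((v + 1) + 1)) + 1) + 3) :=
    Real.log_nonneg (by nlinarith [mul_nonneg hK hv])
  have p4 : 0 ≤ Real.log (8 * (v : ℝ) + 10) := Real.log_nonneg (by linarith)
  have p5 := cA_nonneg K
  have p6 := Pool.AVG5.cJ_nonneg K
  unfold cGv
  positivity

/-- **The constants with the gradient**, several moved places. -/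
theorem cEk_le {v k K : ℕ} {U μ J : ℝ} (h0 : 0 ≤ U) (h : U ≤ 2 ^ (μ / 2 * J)) (hμ : 0 ≤ μ)
    (hJ : 0 ≤ J) (hk : k ≤ v + 1) : cE0 k K (U + 8 * (v + 1 : ℕ) * U) ≤
      (v + 2) * (μ / 2 * J) + cGv v K := by
  have hU' : 0 ≤ U + 8 * (v + 1 : ℕ) * U := by positivity
  have hl := log_U (v := v) h0 h hμ hJ
  have a1 := log_aff hU' (a := 1) zero_le_one
  have a2 := log_aff hU' (a := 4 * k + 2 * ((K + 1) * (k + 1)) + 1) (by positivity)
  have e1 : (2 : ℝ) * 1 + 3 = 5 := by norm_num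
  rw [e1] at a1
  have hkv : (k : ℝ) ≤ v + 1 := by exact_mod_cast hk
  have hk0 : (0 : ℝ) ≤ k := Nat.cast_nonneg k
  have hv : (0 : ℝ) ≤ v := Nat.cast_nonneg v
  have hK : (0 : ℝ) ≤ K := Nat.cast_nonneg K
  have p1 : 0 ≤ Real.log (5 : ℝ) := Real.log_nonneg (by norm_num)
  have p4 : 0 ≤ Real.log (8 * (v : ℝ) + 10) := Real.log_nonneg (by linarith)
  have p6 := Pool.AVG5.cJ_nonneg K
  have hμJ : 0 ≤ μ / 2 * J := by positivity
  have g1 : (k : ℝ) * Real.log (2 * (U + 8 * (v + 1 : ℕ) * U + 1) + 1) ≤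
      (v + 1) * (Real.log 5 + (Real.log (8 * v + 10) + μ / 2 * J)) := by
    have g2 : Real.log (2 * (U + 8 * (v + 1 : ℕ) * U + 1) + 1) ≤
      Real.log 5 + (Real.log (8 * v + 10) + μ / 2 * J) := by linarith
    calc (k : ℝ) * Real.log (2 * (U + 8 * (v + 1 : ℕ) * U + 1) + 1) ≤
          k * (Real.log 5 + (Real.log (8 * v + 10) + μ / 2 * J)) :=
          mul_le_mul_of_nonneg_left g2 hk0
      _ ≤ _ := mul_le_mul_of_nonneg_right hkv (by positivity)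
  have g3 : (2 * (k : ℝ) + 3) * Pool.AVG5.cJ K ≤ (2 * (v + 1) + 3) * Pool.AVG5.cJ K :=
    mul_le_mul_of_nonneg_right (by linarith) p6
  have g4 : Real.log (2 * (4 * (k : ℝ) + 2 * (((K : ℝ) + 1) * (k + 1)) + 1) + 3) ≤
      Real.log (2 * (4 * ((v : ℝ) + 1) + 2 * (((K : ℝ) + 1) * ((v + 1) + 1)) + 1) + 3) := by
    refine Real.log_le_log (by positivity) ?_
    have g5 : ((K : ℝ) + 1) * (k + 1) ≤ (K + 1) * ((v + 1) + 1) :=
      mul_le_mul_of_nonneg_left (by linarith) (by positivity)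
    linarith
  unfold cE0 cGv
  have e2 : U + 8 * (v + 1 : ℕ) * U + 4 * k + 2 * ((K + 1) * (k + 1)) + 1 =
      U + 8 * (v + 1 : ℕ) * U + (4 * k + 2 * ((K + 1) * (k + 1)) + 1) := by ring
  rw [e2]
  have e3 : ((v : ℝ) + 1) * (Real.log 5 + (Real.log (8 * v + 10) + μ / 2 * J)) =
    (v + 1) * Real.log 5 + (v + 1) * Real.log (8 * v + 10) + (v + 1) * (μ / 2 * J) := by ring
  rw [e3] at g1
  have e4 : ((v : ℝ) + 2) * Real.log 5 = (v + 1) * Real.log 5 + Real.log 5 := by ring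
  have e5 : ((v : ℝ) + 2) * Real.log (8 * v + 10) = (v + 1) * Real.log (8 * v + 10) +
    Real.log (8 * v + 10) := by ring
  have e6 : ((v : ℝ) + 2) * (μ / 2 * J) = (v + 1) * (μ / 2 * J) + μ / 2 * J := by ring
  rw [e4, e5, e6]
  linarith

/-- The factor of `t J` in the total error. -/
noncomputable def aEv (v K : ℕ) : ℝ := 8 * (2 + 4 * (v + 1) + (K + 1)) + (v + 2)

/-- The constant of the total error. -/
noncomputable def cEv (v K M : ℕ) : ℝ :=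
  8 * (cT v K M + (v + 1) * cL K) + 2 * cGv v K + (v + 1) * cV K

theorem cEv_nonneg (v K M : ℕ) : 0 ≤ cEv v K M := by
  have h1 := cT_nonneg v K M
  have h2 := cL_nonneg K
  have h3 := cGv_nonneg v K
  have h4 := cV_nonneg K
  unfold cEv
  positivity

/-- **The total error.** -/
theorem evn_le {v k K M : ℕ} {U μ J t η' : ℝ} (h0 : 0 ≤ U) (h : U ≤ 2 ^ (μ / 2 * J)) (hμ : 0 ≤ μ)
    (hJ : 0 ≤ J) (hk : k ≤ v + 1) (ht : 0 ≤ t) (hμt : μ ≤ t) (h2 : η' ≤ 2 * t * J) :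
    Evn 1 k K (U + 8 * (v + 1 : ℕ) * U) (eV v K M (2 ^ (t * J)) η') ≤
      aEv v K * (t * J) + cEv v K M := by
  have f1 := cEk_le (K := K) h0 h hμ hJ hk
  have f3 := eT_le (v := v) (K := K) (M := M) ht hJ h2
  have hv : (0 : ℝ) ≤ v := Nat.cast_nonneg v
  have hkv : (k : ℝ) ≤ v + 1 := by exact_mod_cast hk
  have g1 : (k : ℝ) * cV K ≤ (v + 1) * cV K := mul_le_mul_of_nonneg_right hkv (cV_nonneg K)
  have g2 : ((v : ℝ) + 2) * (μ / 2 * J) ≤ (v + 2) * (t / 2 * J) :=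
    mul_le_mul_of_nonneg_left (mul_le_mul_of_nonneg_right (by linarith) hJ) (by positivity)
  have g3 : ((v : ℝ) + 2) * (t / 2 * J) = (v + 2) * (t * J) / 2 := by ring
  unfold Evn eV aEv cEv
  push_cast
  push_cast at f1 f3
  linarith

/-- The error is at most the total error. -/
theorem le_eV {v K M : ℕ} {ρ η : ℝ} (hη : 0 ≤ η) (hρ : 0 ≤ ρ) : η ≤ eV v K M ρ η := by
  have h1 := le_eT (v := v) (K := K) (M := M) hη hρ
  have h2 := cL_nonneg K
  have hv : (0 : ℝ) ≤ v := Nat.cast_nonneg v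
  unfold eV
  have : 0 ≤ ((v : ℝ) + 1) * cL K := by positivity
  linarith

/-- **Closed gradients in the directions of the places `r₀, …, v`**, in a class, for charts of these
places of degree at most one. -/
theorem cv_cls (r₀ v K : ℕ) {h σ ε : ℝ} (hh : 0 < h) (hh1 : h ≤ 1) (hσ : 0 < σ) (hε : 0 < ε) :
    ∃ θ : ℝ, 0 < θ ∧ θ ≤ 1 ∧
      ∀ {m : ℕ} {γ : ∀ J : ℕ, Fam m J → Type} {S : PCl m}
        {y : ∀ (J : ℕ) (F : Fam m J), F.Ω → γ J F} {c : ℕ → Fin m}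
        {w δW j x : ℝ} {p s n n' nt : ℕ → ℝ} {qr ξ μ Nd Nt : ℝ} {nb : ℕ → ℝ}
        {Df Dn Dx Dd : ℕ → ℕ → ℝ} {Ef En : ℕ → ℝ} {Nv : ℕ → ℕ → ℝ} {P₁ P₂ η : ℝ}
        (_ : CvN r₀ v w δW p s n n' nt qr ξ μ Nd nb Df Dn Dx Dd Ef En Nv P₁ P₂)
        (_ : CvC S y c r₀ v K w j x p n n' nt Nd Nt nb Df Dn Dx Dd Ef En Nv P₁ P₂ h η),
        0 ≤ η → η ≤ θ * ξ → μ ≤ θ * ξ → s (v + 1) + qr ≤ Nt + θ * ξ →
        P₂ - P₁ ≤ (1 + θ) * ξ →
        ∀ E : ℝ, Bas S (fun J F B => ∀ (ks nn : ℕ) (gm : ℕ → ℕ)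
          (G : ℕ → PtT F → ℕ → MvPolynomial (Option (Fin m)) ℝ)
          (H : LnT F → ℕ → MvPolynomial (Option (Fin m)) ℝ) (U : ℝ),
          LbsE F c v K w p s E gm B (G 0) H →
          (∀ l, r₀ ≤ l → l ≤ v → ∀ s, (H s l).totalDegree ≤ 1) →
          ClU F (v + 2) ks ⌊j * J⌋₊ B G → ClU F (v + 2) nn ⌊x * J⌋₊ B G → ks ≤ nn →
          GrdE F c 0 (v + 1) ks nn ⌊qr * J⌋₊ ⌊ξ * J⌋₊ gm U B G → U ≤ 2 ^ (μ / 2 * J) →
          ∃ W : ℕ, ⌊w * J⌋₊ ≤ W ∧ (W : ℝ) ≤ (w + δW) * J ∧ ∃ mu : LnT F → ℕ → Polynomial ℝ,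
            (∀ s l, (mu s l).natDegree ≤ K + 1) ∧
            (∀ s l (u : ℝ), |(mu s l).eval u| ≤ ((K + 1 : ℕ) + 1) * (|u| + 1) ^ (K + 1) *
              (2 : ℝ) ^ (σ * ⌊ξ * J⌋₊)) ∧
            Pb (Pool.Agent.H49.Ent.cond F.p B True) (fun ω => ∃ l, r₀ ≤ l ∧ l ≤ v ∧
              (2 : ℝ) ^ (-(h / 2 * ⌊ξ * J⌋₊)) < |gnh F c (v + 1) gm (G 0) (G nn) ω l -
                (mu (slam F W ω) l).eval (rt F W ω)|) ≤ ε ∧
            ∃ (V : Type) (zw : F.Ω → V), Cl2 (ptr F J) (vg w J F) B zw ∧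
              ∀ Y : ℕ, (Y : ℝ) ≤ h / 2 * ⌊ξ * J⌋₊ → ∀ l, r₀ ≤ l → l ≤ v →
                CH (Pool.Agent.H49.Ent.cond F.p B True)
                  (fun ω => ⌊(2 : ℝ) ^ Y * gnh F c (v + 1) gm (G 0) (G nn) ω l⌋)
                  (fun ω => (rt F W ω, fcV F c r₀ v ⌊w * J⌋₊ W ⌊qr * J⌋₊ ⌊ξ * J⌋₊ ⌊μ * J⌋₊
                    (K + 1) gm H zw (fun l => ⌊n l * J⌋₊) (fun l => ⌊n' l * J⌋₊) ω)) ≤
                  ε * ⌊ξ * J⌋₊) := by
  obtain ⟨ι, π₀, a6, a5, X₀, Hm⟩ := pv_clo2 1 (v + 1 - r₀) (K + 1) (by omega) hh hh1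
    (x₀ := h / 2) (by linarith) (by linarith) hσ hε
  obtain ⟨A, hA⟩ : ∃ A : ℝ, A = aEv v (K + 1) := ⟨_, rfl⟩
  have hA0 : 0 ≤ A := by
    rw [hA]
    unfold aEv
    positivity
  obtain ⟨θ, hθ⟩ : ∃ θ : ℝ, θ = min (min 1 (ι / 4)) (min (ι / (4 * (A + 1)))
    (ι / (8 * (2 + 2 / π₀)))) := ⟨_, rfl⟩
  have hθ0 : 0 < θ := by
    rw [hθ]
    refine lt_min (lt_min one_pos (by positivity)) (lt_min (by positivity) (by positivity))
  have hθ1 : θ ≤ 1 := by rw [hθ]; exact (min_le_left _ _).trans (min_le_left _ _)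
  have hθ2 : θ ≤ ι / 4 := by rw [hθ]; exact (min_le_left _ _).trans (min_le_right _ _)
  have hθ3 : θ ≤ ι / (4 * (A + 1)) := by
    rw [hθ]; exact (min_le_right _ _).trans (min_le_left _ _)
  have hθ4 : θ ≤ ι / (8 * (2 + 2 / π₀)) := by
    rw [hθ]; exact (min_le_right _ _).trans (min_le_right _ _)
  refine ⟨θ, hθ0, hθ1, ?_⟩
  intro m γ S y c w δW j x p s n n' nt qr ξ μ Nd Nt nb Df Dn Dx Dd Ef En Nv P₁ P₂ η N C hη0
    hη hμ hNt hP E
  have hξ := N.ξ0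
  have hw0 := N.w0
  have hδ := N.δ0
  have hμ0 := N.μ0
  have hqr := N.q0
  have hrv := N.rv
  obtain ⟨t, ht⟩ : ∃ t : ℝ, t = θ * ξ := ⟨_, rfl⟩
  have ht0 : 0 < t := by rw [ht]; positivity
  have hP' : P₂ - P₁ ≤ ξ + t := by rw [ht]; linarith only [hP]
  rw [← ht] at hη hμ hNt
  have hw1 : w + δW < 1 := by linarith only [N.w1, hξ]
  have hn0 : ∀ l < r₀, 0 ≤ n l := fun l hl => by
    have h1 := N.c0 l hl
    have h2 := N.ps l (by omega)
    linarith [h2.1, h2.2]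
  have hn0' : ∀ l < r₀, 0 ≤ n' l := fun l hl => (hn0 l hl).trans (N.c1 l hl)
  obtain ⟨C₀, hC₀⟩ := C.tm
  obtain ⟨R, hR⟩ := exists_bdV v (K + 2) w n n' nt nb Df Dn Dx Dd Ef En Nv P₁ P₂
  -- constants
  obtain ⟨C₅, hC₅⟩ : ∃ C₅ : ℝ, C₅ = cEv v (K + 1) (K + 2) := ⟨_, rfl⟩
  have hC₅0 : 0 ≤ C₅ := by
    rw [hC₅]
    exact cEv_nonneg v (K + 1) (K + 2)
  obtain ⟨C₉, hC₉⟩ : ∃ C₉ : ℝ, C₉ = 2 * r₀ * cS (K + 1) / π₀ + 2 * Real.log (2 * 2 + 1) :=
    ⟨_, rfl⟩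
  -- large resolutions
  obtain ⟨J₁, b1⟩ := big 2 (b := ξ / 2) (by positivity)
  obtain ⟨J₂, b2⟩ := big (X₀ + (K + 1 : ℕ) : ℝ) (b := ξ / 2) (by positivity)
  obtain ⟨J₃, b3⟩ := big (4 * C₅) (b := ι * ξ) (by positivity)
  obtain ⟨J₄, b4⟩ := big (C₉ + 1) (b := ι * ξ / 4) (by positivity)
  obtain ⟨J₆, b6⟩ := big (8 * v + 11) (b := μ / 2) (by positivity)
  obtain ⟨J₇, b7⟩ := big 1 (b := δW / 2) (by positivity)
  obtain ⟨J₈, b8⟩ := big ((0 : ℕ) : ℝ) (b := 1 - (w + δW)) (by linarith only [hw1])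
  obtain ⟨I₁, d1⟩ := big_on 2 (r := r₀) (v := v) (g := fun l => p l + qr - Dn l 0)
    fun l h0 h1 => by linarith only [N.n0 l h0 h1]
  obtain ⟨I₂, d2⟩ := big_on 4 (r := r₀) (v := v)
    (g := fun l => p l + qr + ξ + μ - (Dn l 1 + w + δW))
    fun l h0 h1 => by linarith only [N.n1 l h0 h1]
  obtain ⟨I₃, d3⟩ := big_on 2 (r := r₀) (v := v) (g := fun l => p l + qr - Dx l 0)
    fun l h0 h1 => by linarith only [N.x0 l h0 h1]
  obtain ⟨I₄, d4⟩ := big_on 4 (r := r₀) (v := v)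
    (g := fun l => p l + qr + ξ + μ - (Dx l 1 + w + δW))
    fun l h0 h1 => by linarith only [N.x1 l h0 h1]
  obtain ⟨I₅, d5⟩ := big_on 2 (r := r₀) (v := v) (g := fun l => p l + qr - nt l)
    fun l h0 h1 => by linarith only [N.u0 l h0 h1]
  obtain ⟨I₆, d6⟩ := big_on 4 (r := r₀) (v := v) (g := fun l => p l + qr + ξ + μ - (nt l + δW))
    fun l h0 h1 => by linarith only [N.u1 l h0 h1]
  obtain ⟨I₇, d7⟩ := big 2 (b := p (v + 1) + qr - En 0) (by linarith only [N.m0])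
  obtain ⟨I₈, d8⟩ := big 2 (b := p (v + 1) + qr - (En 1 + w + δW)) (by linarith only [N.m1])
  obtain ⟨I₉, d9⟩ := big_on 1 (r := r₀) (v := v) (g := fun l => Df l 1 + w - (s l + qr + ξ + μ))
    fun l h0 h1 => by linarith only [N.f1 l h0 h1]
  obtain ⟨L₁, g1⟩ := big_on 1 (r := r₀) (v := v) (g := fun l => Nv l 1 + w - (s l + qr + ξ + μ))
    fun l h0 h1 => by linarith only [N.v1 l h0 h1]
  obtain ⟨L₂, g2⟩ := big_on 4 (r := r₀) (v := v) (g := fun l => p l + qr + ξ + μ - nb l)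
    fun l h0 h1 => by linarith only [N.b1 l h0 h1]
  obtain ⟨L₃, g3⟩ := big_lt (6 * (K + 1 : ℕ) + 1) (r := r₀)
    (g := fun l => n l - (s l + qr + ξ + μ)) fun l hl => by linarith only [N.c0 l hl]
  obtain ⟨L₄, g4⟩ := big 2 (b := p (v + 1) + qr - P₁) (by linarith only [N.r1])
  obtain ⟨Jm, hJm⟩ : ∃ Jm : ℕ, Jm = 1 + J₁ + J₂ + J₃ + J₄ + J₆ + J₇ + J₈ + I₁ + I₂ +
    I₃ + I₄ + I₅ + I₆ + I₇ + I₈ + I₉ + L₁ + L₂ + L₃ + L₄ := ⟨_, rfl⟩
  refine Bas.mono Jm ((alive_cls hC₀ 0 (ε₀ := 1) (δ := δW / 2) (ψ := t) one_pos (by positivity)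
    ht0).and (C.bas (kq R E (K + 2) K) E (η₁ := t) (π₀ := π₀) ht0 a5)) ?_
  rintro J hJ F B ⟨⟨hPB, hal⟩, CH1⟩ ks nn gm G H U Lb hAf hGj hGx hks grd hU
  -- the resolution
  have hJ1 : 1 ≤ J := by omega
  have hJ0 : (0 : ℝ) ≤ J := Nat.cast_nonneg J
  replace b1 := b1 J (by omega)
  replace b2 := b2 J (by omega)
  replace b3 := b3 J (by omega)
  replace b4 := b4 J (by omega)
  replace b6 := b6 J (by omega)
  replace b7 := b7 J (by omega)
  replace b8 := b8 J (by omega)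
  replace d1 := d1 J (by omega)
  replace d2 := d2 J (by omega)
  replace d3 := d3 J (by omega)
  replace d4 := d4 J (by omega)
  replace d5 := d5 J (by omega)
  replace d6 := d6 J (by omega)
  replace d7 := d7 J (by omega)
  replace d8 := d8 J (by omega)
  replace d9 := d9 J (by omega)
  replace g1 := g1 J (by omega)
  replace g2 := g2 J (by omega)
  replace g3 := g3 J (by omega)
  replace g4 := g4 J (by omega)
  obtain ⟨wn, hwn⟩ : ∃ wn : ℕ, wn = ⌊w * J⌋₊ := ⟨_, rfl⟩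
  obtain ⟨q, hq⟩ : ∃ q : ℕ, q = ⌊qr * J⌋₊ := ⟨_, rfl⟩
  obtain ⟨X, hX⟩ : ∃ X : ℕ, X = ⌊ξ * J⌋₊ := ⟨_, rfl⟩
  obtain ⟨mm, hmm⟩ : ∃ mm : ℕ, mm = ⌊μ * J⌋₊ := ⟨_, rfl⟩
  have w1 : (wn : ℝ) ≤ w * J := by rw [hwn]; exact Nat.floor_le (by positivity)
  have w2 : w * J ≤ wn + 1 := by rw [hwn]; exact (Nat.lt_floor_add_one _).le
  have q1 : (q : ℝ) ≤ qr * J := by rw [hq]; exact Nat.floor_le (by positivity)
  have q2 : qr * J ≤ q + 1 := by rw [hq]; exact (Nat.lt_floor_add_one _).le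
  have x1 : (X : ℝ) ≤ ξ * J := by rw [hX]; exact Nat.floor_le (by positivity)
  have x2 : ξ * J ≤ X + 1 := by rw [hX]; exact (Nat.lt_floor_add_one _).le
  have m1 : (mm : ℝ) ≤ μ * J := by rw [hmm]; exact Nat.floor_le (by positivity)
  have m2 : μ * J ≤ mm + 1 := by rw [hmm]; exact (Nat.lt_floor_add_one _).le
  have y1 : ∀ l ≤ v + 1, p l * J ≤ gm l + 1 := fun l hl => by
    have h1 := (Nat.lt_floor_add_one (p l * J)).le
    have h2 : ((⌊p l * J⌋₊ : ℕ) : ℝ) ≤ gm l := by exact_mod_cast Lb.lo l hl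
    linarith only [h1, h2]
  have y2 := Lb.hi
  have yt1 := y1 (v + 1) le_rfl
  have yt2 := y2 (v + 1) le_rfl
  have X2 : ξ * J / 2 ≤ X := by linarith only [b1, x2]
  have tJ0 : 0 ≤ t * J := by positivity
  have mt : (mm : ℝ) ≤ t * J := by
    have := mul_le_mul_of_nonneg_right hμ hJ0
    linarith only [this, m1]
  -- the window
  have hwJ : wn ≤ J := by
    have h1 : w * J ≤ 1 * J := mul_le_mul_of_nonneg_right (by linarith only [hw1, hδ]) hJ0
    have : (wn : ℝ) ≤ J := by linarith only [h1, w1]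
    exact_mod_cast this
  obtain ⟨I, hI⟩ : ∃ I : ℕ, I = ⌊δW * J⌋₊ := ⟨_, rfl⟩
  have i1 : (I : ℝ) ≤ δW * J := by rw [hI]; exact Nat.floor_le (by positivity)
  have i2 : δW * J ≤ I + 1 := by rw [hI]; exact (Nat.lt_floor_add_one _).le
  obtain ⟨i, hi', hT⟩ := hal wn I (by linarith only [b7, i2]) (by
    have : ((wn + I + 0 : ℕ) : ℝ) ≤ J := by
      push_cast
      push_cast at b8
      linarith only [w1, i1, b8]
    exact_mod_cast this)
  obtain ⟨W, hW⟩ : ∃ W : ℕ, W = wn + i := ⟨_, rfl⟩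
  rw [← hW] at hT
  have wW : wn ≤ W := by omega
  have W2 : (W : ℝ) ≤ (w + δW) * J := by
    have h1 : (i : ℝ) ≤ I := by exact_mod_cast hi'.le
    rw [hW]
    push_cast
    linarith only [h1, w1, i1]
  have W1 : w * J - 1 ≤ W := by
    have h1 : (wn : ℝ) ≤ W := by exact_mod_cast wW
    linarith only [h1, w2]
  have WX : W + X ≤ J := by
    have h1 : (w + δW + ξ) * J ≤ 1 * J := mul_le_mul_of_nonneg_right N.w1.le hJ0
    have : ((W + X : ℕ) : ℝ) ≤ J := by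
      push_cast
      linarith only [h1, W2, x1]
    exact_mod_cast this
  have WJ : W ≤ J := by omega
  refine ⟨W, by rw [← hwn]; exact wW, W2, ?_⟩
  -- the records
  have hjJ : ⌊j * J⌋₊ ≤ J := by
    have h1 : j * J ≤ 1 * J := mul_le_mul_of_nonneg_right C.j1 hJ0
    have h2 : (⌊j * J⌋₊ : ℝ) ≤ J := (Nat.floor_le (mul_nonneg (hw0.trans C.wj) hJ0)).trans
      (by linarith only [h1])
    exact_mod_cast h2
  have hxJ : ⌊x * J⌋₊ ≤ J := by
    have h1 : x * J ≤ 1 * J := mul_le_mul_of_nonneg_right C.x1 hJ0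
    have h2 : (⌊x * J⌋₊ : ℝ) ≤ J := (Nat.floor_le (mul_nonneg (hw0.trans C.wx) hJ0)).trans
      (by linarith only [h1])
    exact_mod_cast h2
  obtain ⟨Vw, zw, zw1, zw2⟩ := mx0 (ptr F J) (vg w J F) B
  obtain ⟨Vj, zj, zj1, zj2⟩ := mx0 (ptr F J) (vg j J F) B
  obtain ⟨Vx, zx, zx1, zx2⟩ := mx0 (ptr F J) (vg x J F) B
  have hcl := isLaw_cond F.isLaw hPB
  have hsup : ∀ ω, 0 < Pool.Agent.H49.Ent.cond F.p B True ω → B ω := fun ω hω => by
    have h1 := ((cond_pos_iff F.isLaw.nonneg B True ω).mp hω).2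
    exact of_eq_true h1
  -- the values
  have hgN : ((gm (v + 1) + q + X : ℕ) : ℝ) ≤ Nd * J := by
    have := mul_le_mul_of_nonneg_right N.d0 hJ0
    push_cast
    linarith only [this, yt2, q1, x1]
  have CE := CH1.ev Lb hAf hR hrv hw0 (by linarith only [hw1, hδ]) hJ1 hPB ht0.le hn0 hn0'
    (C.yW J F) hgN zw1 zw2 zj1 zj2 zx1 zx2
  have hη' : (η + t) * J ≤ 2 * t * J := mul_le_mul_of_nonneg_right (by linarith only [hη]) hJ0
  have hη'0 : 0 ≤ (η + t) * J := by positivity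
  have hU0 := grd.U0
  have hNtJ : (2 : ℝ) ^ (gm (v + 1) + q) ≤ 2 ^ (t * J) * 2 ^ (Nt * J) := by
    rw [← Real.rpow_add two_pos, ← Real.rpow_natCast]
    refine Real.rpow_le_rpow_of_exponent_le one_le_two ?_
    have := mul_le_mul_of_nonneg_right hNt hJ0
    push_cast
    linarith only [this, yt2, q1]
  have hmU : U + 8 * (v + 1 : ℕ) * U + 1 ≤ 2 ^ mm := by
    have k1 : (1 : ℝ) ≤ 2 ^ (μ / 2 * J) := Real.one_le_rpow (by norm_num) (by positivity)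
    have k2 : U + 8 * (v + 1 : ℕ) * U + 1 ≤ (8 * v + 10) * 2 ^ (μ / 2 * J) := by
      have hv : (0 : ℝ) ≤ v := Nat.cast_nonneg v
      push_cast
      have k3 := mul_le_mul_of_nonneg_left hU (show (0 : ℝ) ≤ 8 * v + 9 by positivity)
      linarith only [k3, k1]
    have k4 : ((8 * v + 10 : ℕ) : ℝ) ≤ 2 ^ (8 * v + 10) := by
      have : 8 * v + 10 ≤ 2 ^ (8 * v + 10) := (Nat.lt_two_pow_self).le
      exact_mod_cast this
    have k5 : (2 : ℝ) ^ (8 * v + 10) * 2 ^ (μ / 2 * J) ≤ 2 ^ mm := by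
      rw [← Real.rpow_natCast, ← Real.rpow_natCast, ← Real.rpow_add two_pos]
      refine Real.rpow_le_rpow_of_exponent_le one_le_two ?_
      push_cast
      linarith only [b6, m2]
    refine k2.trans (le_trans ?_ k5)
    push_cast at k4
    exact mul_le_mul_of_nonneg_right k4 (by positivity)
  have hKX : ((K + 1 : ℕ) : ℝ) ≤ 2 ^ (X + mm) := by
    have k1 : ((K + 1 : ℕ) : ℝ) ≤ X := by
      have : (0 : ℝ) ≤ X₀ := Nat.cast_nonneg _
      linarith only [b2, X2, this]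
    have k2 : K + 1 ≤ X := by exact_mod_cast k1
    have k3 : K + 1 ≤ 2 ^ (X + mm) := (Nat.lt_two_pow_self).le.trans
      (Nat.pow_le_pow_right (by norm_num) (k2.trans (Nat.le_add_right _ _)))
    exact_mod_cast k3
  have hcn : ∀ l < r₀, gm l + (q + X) + 2 * (K + 1) ≤ ⌊n l * J⌋₊ := fun l hl => by
    refine Nat.le_floor ?_
    have k1 := g3 l hl
    have k2 := y2 l (by omega)
    have k3 : 0 ≤ μ * J := by positivity
    have k4 : (0 : ℝ) ≤ K := Nat.cast_nonneg K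
    push_cast at k1 ⊢
    linarith only [k1, k2, k3, k4, q1, x1]
  obtain ⟨e, he⟩ : ∃ e : ℝ, e = eV v (K + 1) (K + 2) (2 ^ (t * J)) ((η + t) * J) := ⟨_, rfl⟩
  have hψe : t * J ≤ e := by
    have h1 := le_eV (v := v) (K := K + 1) (M := K + 2) (ρ := 2 ^ (t * J)) hη'0 (by positivity)
    rw [← he] at h1
    have : 0 ≤ η * J := by positivity
    linarith only [h1, this]
  have PV := CE.prv (q := q) (X := X) (mm := mm) (γ := gm) (B := B) (G := G) (ks := ks)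
    (nn := nn) (D := K) (W := W) (U := U) (ρ := 2 ^ (t * J)) hη'0 hrv hw0 hn0 hAf N.dv rfl
    (by positivity) hNtJ hcl hsup (by rw [← hwn]; exact wW) WJ Lb.deg le_rfl hKX Lb.cls
    (by rw [hq, hX]; exact grd) hks hmU
    (fun ω ν hω hν e' => by
      obtain ⟨ψ, hψ⟩ := zw1.2
      rw [hψ ω (hsup ω hω), hψ ν (hsup ν hν)]
      exact congrArg ψ e') hcn
    (fun ω ν _ _ e' => zj2 _ _ (chs_cl2 hjJ hGj) ω ν e')
    (fun ω ν _ _ e' => zx2 _ _ (chs_cl2 hxJ hGx) ω ν e')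
    (fun ω ν _ _ e' => zx2 _ _ (cl2_up C.wx hxJ zw1) ω ν e')
    (fun l l0 l1 => by
      have k1 := d1 l l0 l1
      have k2 := y1 l (by omega)
      push_cast
      linarith only [k1, k2, q2])
    (fun l l0 l1 => by
      have k1 := d2 l l0 l1
      have k2 := y1 l (by omega)
      push_cast
      linarith only [k1, k2, W2, q2, x2, m2])
    (fun l l0 l1 => by
      have k1 := d3 l l0 l1
      have k2 := y1 l (by omega)
      push_cast
      linarith only [k1, k2, q2])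
    (fun l l0 l1 => by
      have k1 := d4 l l0 l1
      have k2 := y1 l (by omega)
      push_cast
      linarith only [k1, k2, W2, q2, x2, m2])
    (fun l l0 l1 => by
      have k1 := d5 l l0 l1
      have k2 := y1 l (by omega)
      push_cast
      linarith only [k1, k2, q2])
    (fun l l0 l1 => by
      have k1 := d6 l l0 l1
      have k2 := y1 l (by omega)
      push_cast
      linarith only [k1, k2, W2, q2, x2, m2])
    (by
      push_cast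
      linarith only [d7, yt1, q2])
    (by
      push_cast
      linarith only [d8, yt1, q2, W2])
    (by
      have := mul_le_mul_of_nonneg_right N.mf hJ0
      push_cast
      linarith only [this, yt2, q1, x1])
    (fun l l0 l1 => by
      have k1 := mul_le_mul_of_nonneg_right (N.f0 l l0 l1) hJ0
      have k2 := y2 l (by omega)
      push_cast
      linarith only [k1, k2, q1, x1, m1])
    (fun l l0 l1 => by
      have k1 := d9 l l0 l1
      have k2 := y2 l (by omega)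
      push_cast
      linarith only [k1, k2, q1, x1, m1, W1])
    (fun l l0 l1 => by
      have k1 := mul_le_mul_of_nonneg_right (N.v0 l l0 l1) hJ0
      have k2 := y2 l (by omega)
      push_cast
      linarith only [k1, k2, q1])
    (fun l l0 l1 => by
      have k1 := g1 l l0 l1
      have k2 := y2 l (by omega)
      push_cast
      linarith only [k1, k2, q1, x1, m1, W1])
    (fun l l0 l1 => by
      have k1 := mul_le_mul_of_nonneg_right (N.b2 l l0 l1) hJ0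
      linarith only [k1, x1])
    hT (by rw [← he]; exact hψe)
  rw [← he] at PV
  -- the numbers
  have hEv := evn_le (v := v) (k := v + 1 - r₀) (K := K + 1) (M := K + 2) hU0 hU hμ0.le hJ0
    (Nat.sub_le _ _) ht0.le hμ hη'
  rw [← he, ← hA, ← hC₅] at hEv
  have hξJ : 0 ≤ ξ * J := by positivity
  have htJ : t * J = θ * (ξ * J) := by rw [ht]; ring
  have hιX : ι * (ξ * J) / 2 ≤ ι * X := by
    have := mul_le_mul_of_nonneg_left X2 a6.le
    linarith only [this]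
  have k1 : A * (t * J) ≤ ι * (ξ * J) / 4 := by
    rw [le_div_iff₀ (by positivity)] at hθ3
    have h1 := mul_le_mul_of_nonneg_right hθ3 hξJ
    rw [htJ]
    have h2 : 0 ≤ θ * (ξ * J) := by positivity
    linarith only [h1, h2]
  have k2 : t * J ≤ ι * (ξ * J) / 4 := by
    have h1 := mul_le_mul_of_nonneg_right hθ2 hξJ
    rw [htJ]
    linarith only [h1]
  have k3 : (2 + 2 / π₀) * (t * J) ≤ ι * (ξ * J) / 8 := by
    rw [le_div_iff₀ (by positivity)] at hθ4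
    have h1 := mul_le_mul_of_nonneg_right hθ4 hξJ
    rw [htJ]
    linarith only [h1]
  have hιξ : 0 ≤ ι * (ξ * J) := by positivity
  have hXX : X₀ ≤ X := by
    have : (X₀ : ℝ) ≤ X := by
      have k1 : (0 : ℝ) ≤ ((K + 1 : ℕ) : ℝ) := Nat.cast_nonneg _
      linarith only [b2, X2, k1]
    exact_mod_cast this
  have hlog : 0 ≤ Real.log 2 := by linarith only [log2_ge]
  -- the row
  have hrow : ∀ E' : Set F.Ω, π₀ ≤ Pr (Pool.Agent.H49.Ent.cond F.p B True) E' →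
      CH (rs (Pool.Agent.H49.Ent.cond F.p B True) E')
        (Mh F c (v + 1) ⌊w * J⌋₊ H (gm (v + 1) + q + X))
        (fun ω => ((Mh F c (v + 1) ⌊w * J⌋₊ H (gm (v + 1) + q) ω,
          oth (0 : Fin 1) (Mm F c (fun _ : Fin 1 => v + 1) ⌊w * J⌋₊ H
            (fun _ => gm (v + 1) + q + X) ω)),
          (Vm F c (mvR r₀ v) ⌊w * J⌋₊ H (fun j => nb (mvR r₀ v j) * J) ω,
            (rt F W ω, zxs F c 0 W zw (sdL F c r₀ ⌊w * J⌋₊ (K + 1) H (fun l => ⌊n l * J⌋₊)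
              (fun l => ⌊n' l * J⌋₊)) ω)))) ≤
        (1 - h) * X * Real.log 2 + (2 + 2 / π₀) * (t * J) + (C₉ + 1) := by
    intro E' hE'
    obtain ⟨B', hB'⟩ : ∃ B' : F.Ω → Prop, B' = fun ω => B ω ∧ ω ∈ E' := ⟨_, rfl⟩
    have r1 : rs (Pool.Agent.H49.Ent.cond F.p B True) E' =
        Pool.Agent.H49.Ent.cond F.p B' True := by
      rw [hB']
      exact Pool.RPL.cond_and_ev F.p (E := fun ω => ω ∈ E') hPB.ne'
    have r2 : π₀ * Pe F.p B ≤ Pe F.p B' := by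
      have k1 : Pr (Pool.Agent.H49.Ent.cond F.p B True) E' = Pe F.p B' / Pe F.p B := by
        rw [hB']
        exact Pe_cond (fun ω => ω ∈ E')
      rw [k1, le_div_iff₀ hPB] at hE'
      exact hE'
    have r3 : Sub B' B := fun ω hω => by
      rw [hB'] at hω
      exact hω.1
    have hPB' : 0 < Pe F.p B' := lt_of_lt_of_le (by positivity) r2
    have hcl' := isLaw_cond F.isLaw hPB'
    have rw1 := CH1.rowv Lb hR hw0 (by linarith only [hw1, hδ]) hJ1 zw1 zw2 r3 r2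
    have yf := CE.yfew (W := W) (D := K) hcl hw0 (by rw [← hwn]; exact wW) WJ Lb.deg le_rfl
    have yf' := Pool.OWN83.ch_part F.isLaw r3 hPB a5 r2 (y J F) _
      (e := (2 * r₀ * cS (K + 1) + (η + t) * J) / π₀) (by
        refine yf.trans (le_of_eq ?_)
        field_simp)
    have s1 : P₁ * J ≤ ((gm (v + 1) + q : ℕ) : ℝ) := by
      push_cast
      linarith only [g4, yt1, q2]
    have s3 : ((gm (v + 1) + q + X : ℕ) : ℝ) ≤ P₂ * J := by
      have := mul_le_mul_of_nonneg_right N.r2 hJ0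
      push_cast
      linarith only [this, yt2, q1, x1]
    have ev := row_evV (y := y J F) (zw := zw) (r₀ := r₀) (nc := fun l => ⌊n l * J⌋₊)
      (nc' := fun l => ⌊n' l * J⌋₊) (c := c) (v := v) (K := K + 1) (H := H) (W := W)
      (w := ⌊w * J⌋₊) (a := fun ω => oth (0 : Fin 1) (Mm F c (fun _ : Fin 1 => v + 1) ⌊w * J⌋₊ H
        (fun _ => gm (v + 1) + q + X) ω))
      hcl' (nb := nb) s1 s3
    rw [r1]
    refine ev.trans ?_
    have t1 : (1 - h) * (P₂ - P₁) * Real.log 2 * J ≤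
        (1 - h) * X * Real.log 2 + (t * J + 1) := by
      have k1 : (P₂ - P₁) * J ≤ X + (t * J + 1) := by
        have := mul_le_mul_of_nonneg_right hP' hJ0
        linarith only [this, x2]
      have l1 := log2_le
      have l2 := log2_ge
      have k2 : 0 ≤ (1 - h) * Real.log 2 := mul_nonneg (by linarith only [hh1])
        (by linarith only [l2])
      have k3 : (1 - h) * Real.log 2 ≤ 1 := by
        have := mul_le_mul (show 1 - h ≤ 1 by linarith only [hh]) l1 (by linarith only [l2])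
          zero_le_one
        linarith only [this]
      have k4 := mul_le_mul_of_nonneg_left k1 k2
      have k5 := mul_le_mul_of_nonneg_right k3 (show 0 ≤ t * J + 1 by linarith only [tJ0])
      linarith only [k4, k5]
    have t2 : (2 * r₀ * cS (K + 1) + (η + t) * J) / π₀ ≤
        2 * r₀ * cS (K + 1) / π₀ + (2 * (t * J)) / π₀ := by
      rw [← add_div]
      exact div_le_div_of_nonneg_right (by linarith only [hη']) a5.le
    have t3 : η * J ≤ t * J := mul_le_mul_of_nonneg_right hη hJ0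
    have t4 : 2 / π₀ * (t * J) = (2 * (t * J)) / π₀ := by ring
    rw [hC₉, add_mul, t4]
    linarith only [rw1, yf', t1, t2, t3]
  have hUr : (1 - h) * X * Real.log 2 + (2 + 2 / π₀) * (t * J) + (C₉ + 1) ≤
      (1 - h) * X * Real.log 2 + ι * X := by
    linarith only [k3, b4, hιX, hιξ]
  obtain ⟨mu, o1, o2, o3, o4⟩ := Hm PV 0
    (Ur := (1 - h) * X * Real.log 2 + (2 + 2 / π₀) * (t * J) + (C₉ + 1)) (ψ := t) (ε₀ := 1)
    (j₀ := 0)
    (fun j' => by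
      have k1 := mul_le_mul_of_nonneg_right (N.b0 _ (mvR_lo j') (mvR_hi j')) hJ0
      have k2 := y2 (mvR r₀ v j') ((mvR_hi j').trans (Nat.le_succ v))
      push_cast
      linarith only [k1, k2, q1, x1])
    (fun j' => by
      have k1 := g2 _ (mvR_lo j') (mvR_hi j')
      have k2 := y1 (mvR r₀ v j') ((mvR_hi j').trans (Nat.le_succ v))
      push_cast
      linarith only [k1, k2, q2, x2, m2])
    rfl (fun ω _ u hu => absurd (Subsingleton.elim u 0) hu) hrow hT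
    (zxs_L (fun ω ν hω hν e' => by
      obtain ⟨ψ, hψ⟩ := zw1.2
      rw [hψ ω (hsup ω hω), hψ ν (hsup ν hν)]
      have h1 : slam F wn ω = slam F wn ν := by
        rw [← upw_slam F wW WJ ω, ← upw_slam F wW WJ ν, e']
      rw [hwn] at h1
      exact congrArg ψ h1) (sdL_L (by rw [← hwn]; exact wW) WJ _))
    hXX WX (by linarith only [k2, hιX, hιξ]) (by linarith only [mt, k2, hιX, hιξ])
    (by linarith only [hEv, k1, b3, hιX]) hUr
  rw [← hX, ← hq, ← hmm]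
  have hidx : ∀ l, r₀ ≤ l → l ≤ v → ∃ j' : Fin (v + 1 - r₀), mvR r₀ v j' = l := fun l l0 l1 =>
    mvR_ex l0 l1
  refine ⟨fun s l => if h : r₀ ≤ l ∧ l ≤ v then mu s ⟨l - r₀, by omega⟩ else 0,
    fun s l => ?_, fun s l u => ?_, ?_, Vw, zw, zw1, fun Y hY l l0 l1 => ?_⟩
  · dsimp only
    split_ifs with h1
    · exact o1 s _
    · simp
  · dsimp only
    split_ifs with h1
    · exact o2 s _ u
    · simp only [Polynomial.eval_zero, abs_zero]
      positivity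
  · refine le_trans (Pb_le_Pb hcl.nonneg fun ω _ ⟨l, l0, l1, hl⟩ => ?_) o3
    have h1 : r₀ ≤ l ∧ l ≤ v := ⟨l0, l1⟩
    beta_reduce at hl
    rw [dif_pos h1] at hl
    refine ⟨⟨l - r₀, by omega⟩, ?_⟩
    have h2 : mvR r₀ v ⟨l - r₀, by omega⟩ = l := by
      unfold mvR
      dsimp only
      omega
    rw [h2]
    exact hl
  · have h2 : mvR r₀ v ⟨l - r₀, by omega⟩ = l := by
      unfold mvR
      dsimp only
      omega
    have h3 := o4 Y hY ⟨l - r₀, by omega⟩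
    rw [h2] at h3
    exact h3

end Pool.C1V35
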