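import Pool.Agent.H57.AVG.C2a
import Pool.Agent.H35.C1V.Cvh

/-!
# The closed gradients in a class at almost every `g`, all places of the chain moved

`CGv`: the conclusion of `cv_cls`. `CvX`: the numbers, the windows and the two mutual informations of
`CvC` at the standard digits. `cv_ae`: `CvX` at almost every `g`. `CvR`: the other inputs. `cv_box`:
`CGv` from `CvX` and `CvR`. `cv_gen`: at almost every `g` the inputs `CvR` of a box are enough.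
-/

set_option autoImplicit false

namespace Pool.C1V35

open Finset Real MvPolynomial MeasureTheory Filter Topology
open Pool.Agent.H49.Ent Pool.Agent.H32.Dense Pool.STK Pool.KA Pool.KSAT Pool.K2S Pool.PB Pool.S6C
open Pool.GEN Pool.CHT Pool.CHX Pool.ISO Pool.RCD Pool.LA91 Pool.AVG96 Pool.AVG57
open Pool.PB.Trl (rt rt_mem t_rt)
open Pool.D2R (hgt gnh GrdE chs)
open Pool.BFL (Pb)

variable {m : ℕ} {γ : ∀ J : ℕ, Fam m J → Type}

/-- The near digits: `d` digits beyond the level at the moved places. -/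
noncomputable def dnV (s n n' : ℕ → ℝ) (w d : ℝ) (r₀ l j' : ℕ) : ℝ :=
  if l < r₀ then nd n n' w l j' else s l - (j' : ℝ) * w + d

/-- The digits of the moved places for the own path of the target. -/
noncomputable def ntV (s : ℕ → ℝ) (d : ℝ) (l : ℕ) : ℝ := s l + d

/-- The digits of the moved places, of the orders `0` and `1`. -/
noncomputable def nvV (s : ℕ → ℝ) (w q b : ℝ) (l k : ℕ) : ℝ :=
  if k = 0 then s l + q else s l + b - w

/-- **The gradients in the directions of the places `r₀, …, v` are closed** at a window between `w`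
and `w + δW`, up to the accuracy `2 ^ (-h / 2 ξ J)` and the mass `ε`, for all charts with the natural
gradients, of degree at most one at these places; their digits are few bits given the time and the
far codes. -/
def CGv (S : PCl m) (c : ℕ → Fin m) (r₀ v K : ℕ) (w δW j x : ℝ) (p s n n' : ℕ → ℝ) (q ξ μ : ℝ)
    (h σ ε : ℝ) : Prop :=
  ∀ E : ℝ, Bas S (fun J F B => ∀ (ks nn : ℕ) (gm : ℕ → ℕ)
    (G : ℕ → PtT F → ℕ → MvPolynomial (Option (Fin m)) ℝ)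
    (H : LnT F → ℕ → MvPolynomial (Option (Fin m)) ℝ) (U : ℝ),
    LbsE F c v K w p s E gm B (G 0) H →
    (∀ l, r₀ ≤ l → l ≤ v → ∀ s, (H s l).totalDegree ≤ 1) →
    ClU F (v + 2) ks ⌊j * J⌋₊ B G → ClU F (v + 2) nn ⌊x * J⌋₊ B G → ks ≤ nn →
    GrdE F c 0 (v + 1) ks nn ⌊q * J⌋₊ ⌊ξ * J⌋₊ gm U B G → U ≤ 2 ^ (μ / 2 * J) →
    ∃ W : ℕ, ⌊w * J⌋₊ ≤ W ∧ (W : ℝ) ≤ (w + δW) * J ∧ ∃ mu : LnT F → ℕ → Polynomial ℝ,
      (∀ s l, (mu s l).natDegree ≤ K + 1) ∧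
      (∀ s l (u : ℝ), |(mu s l).eval u| ≤ ((K + 1 : ℕ) + 1) * (|u| + 1) ^ (K + 1) *
        (2 : ℝ) ^ (σ * ⌊ξ * J⌋₊)) ∧
      Pb (Pool.Agent.H49.Ent.cond F.p B True) (fun ω => ∃ l, r₀ ≤ l ∧ l ≤ v ∧
        (2 : ℝ) ^ (-(h / 2 * ⌊ξ * J⌋₊)) < |gnh F c (v + 1) gm (G 0) (G nn) ω l -
          (mu (slam F W ω) l).eval (rt F W ω)|) ≤ ε ∧
      ∃ (V : Type) (zw : F.Ω → V), Cl2 (ptr F J) (vg w J F) B zw ∧
        ∀ Y : ℕ, (Y : ℝ) ≤ h / 2 * ⌊ξ * J⌋₊ → ∀ l, r₀ ≤ l → l ≤ v →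
          CH (Pool.Agent.H49.Ent.cond F.p B True)
            (fun ω => ⌊(2 : ℝ) ^ Y * gnh F c (v + 1) gm (G 0) (G nn) ω l⌋)
            (fun ω => (rt F W ω, fcV F c r₀ v ⌊w * J⌋₊ W ⌊q * J⌋₊ ⌊ξ * J⌋₊ ⌊μ * J⌋₊
              (K + 1) gm H zw (fun l => ⌊n l * J⌋₊) (fun l => ⌊n' l * J⌋₊) ω)) ≤
            ε * ⌊ξ * J⌋₊)

/-- **The numbers, the windows and the mutual informations** at the standard digits. -/
structure CvX (S : PCl m) (y : ∀ (J : ℕ) (F : Fam m J), F.Ω → γ J F) (c : ℕ → Fin m)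
    (r₀ v : ℕ) (sn : ℝ → ℕ → ℝ) (a : ℕ → ℝ) (w j x δW q ξ μ ν : ℝ) (p s n n' : ℕ → ℝ)
    (P₁ P₂ η : ℝ) : Prop where
  num : CvN r₀ v w δW p s n n' (ntV s (q - ν / 4)) q ξ μ (s (v + 1) + q + ξ)
    (fun l => s l + q + ξ) (nD sn a) (dnV s n n' w (q - ν / 4) r₀)
    (dnV s n n' w (q - ν / 4) r₀) (nD sn a) (nD sn a (v + 1)) (enN s w (q - ν / 2) v)
    (nvV s w q (q + ξ + μ + ν)) P₁ P₂
  tm : ∃ C₀, TmC S C₀
  wj : w ≤ j
  j1 : j ≤ 1
  wx : w ≤ x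
  x1 : x ≤ 1
  mj : MIw S (fun J F => ptr F J) y w j
    ((jetQ m c r₀ (v + 1) w p (nD sn a)).prod (prQ m c (v + 1) w (p (v + 1)) (nD sn a (v + 1))))
    ((jetQ m c r₀ (v + 1) w p (dnV s n n' w (q - ν / 4) r₀)).prod
      (prQ m c (v + 1) w (p (v + 1)) (enN s w (q - ν / 2) v))) η
  mx : MIw S (fun J F => ptr F J) y w x (jetQ m c r₀ (v + 1) w p (nD sn a))
    (jetQ m c r₀ (v + 1) w p (dnV s n n' w (q - ν / 4) r₀)) η

/-- **The other inputs** at the standard digits. -/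
structure CvR (S : PCl m) (y : ∀ (J : ℕ) (F : Fam m J), F.Ω → γ J F) (c : ℕ → Fin m)
    (r₀ v K : ℕ) (sn : ℝ → ℕ → ℝ) (a : ℕ → ℝ) (w x q ξ μ ν : ℝ) (p s n n' : ℕ → ℝ)
    (h P₁ P₂ η : ℝ) : Prop where
  yW : ∀ (J : ℕ) (F : Fam m J), ∃ φ : γ J F → F.ζ × ℕ, ∀ ω, φ (y J F ω) = (F.Z ω, F.T ω)
  yf : YfC S y c r₀ w p n n' η
  y0 : ∀ l < r₀, CdC S y c l K 0 w w (p l) (n l) η (Qt.fn fun _ _ _ => ())
  y1 : ∀ l < r₀, CdC S y c l K 1 w w (p l) (n' l) η (Qt.fn fun _ _ _ => ())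
  dj : CdC S y c (v + 1) K 1 w w (p (v + 1)) (s (v + 1) + q + ξ) η
    (jetQ m c r₀ (v + 1) w p (nD sn a))
  jt : CdC S y c (v + 1) K 0 w x (p (v + 1)) (s (v + 1) + q - ν) η
    (qJets m c r₀ (v + 1) (K + 2) (fun _ _ => w) (fun l _ => p l)
      (fun l j' => ntV s (q - ν / 4) l - (j' : ℝ) * w))
  vf : VfV S y c r₀ v w x p (fun l => s l + q + ξ) (nvV s w q (q + ξ + μ + ν)) η
  row : RwV S y c r₀ v w p (fun l => s l + q + ξ) P₁ P₂ h η

variable {S : PCl m} {y : ∀ (J : ℕ) (F : Fam m J), F.Ω → γ J F} {c : ℕ → Fin m} {r₀ v K : ℕ}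
  {s₀ A B Λ : ℝ} {sn : ℝ → ℕ → ℝ} {G : Set ℝ} {Sl a : ℕ → ℝ}
  {w j x δW q ξ μ ν φ C h P₁ P₂ η : ℝ} {p s n n' : ℕ → ℝ}

/-- All the inputs. -/
theorem CvX.cc (X : CvX S y c r₀ v sn a w j x δW q ξ μ ν p s n n' P₁ P₂ η)
    (R : CvR S y c r₀ v K sn a w x q ξ μ ν p s n n' h P₁ P₂ η) :
    CvC S y c r₀ v K w j x p n n' (ntV s (q - ν / 4)) (s (v + 1) + q + ξ)
      (s (v + 1) + q - ν) (fun l => s l + q + ξ) (nD sn a) (dnV s n n' w (q - ν / 4) r₀)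
      (dnV s n n' w (q - ν / 4) r₀) (nD sn a) (nD sn a (v + 1)) (enN s w (q - ν / 2) v)
      (nvV s w q (q + ξ + μ + ν)) P₁ P₂ h η where
  tm := X.tm
  wj := X.wj
  j1 := X.j1
  wx := X.wx
  x1 := X.x1
  yW := R.yW
  yf := R.yf
  y0 := R.y0
  y1 := R.y1
  mj := X.mj
  mx := X.mx
  dj := R.dj
  jt := R.jt
  vf := R.vf
  row := R.row

/-- **The numbers.** -/
theorem bx_num (N : Bx1 sn r₀ v Sl w j x δW q ξ μ ν φ C p s n n') (hr : r₀ ≤ v)
    (hw0 : 0 ≤ w) (hw1 : w + δW + ξ < 1)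
    (hv : ∀ l, r₀ ≤ l → l ≤ v → ∀ j' ≤ 1, sn w l + C < nD sn a l j' + (j' : ℕ) * w)
    (ht : sn w (v + 1) + C < nD sn a (v + 1) 0) (hP₁ : P₁ < p (v + 1) + q)
    (hP₂ : s (v + 1) + q + ξ ≤ P₂) :
    CvN r₀ v w δW p s n n' (ntV s (q - ν / 4)) q ξ μ (s (v + 1) + q + ξ)
      (fun l => s l + q + ξ) (nD sn a) (dnV s n n' w (q - ν / 4) r₀)
      (dnV s n n' w (q - ν / 4) r₀) (nD sn a) (nD sn a (v + 1)) (enN s w (q - ν / 2) v)
      (nvV s w q (q + ξ + μ + ν)) P₁ P₂ := by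
  have hq := N.q0
  have hξ := N.ξ0
  have hμ := N.μ0
  have hν := N.ν0
  have hδ := N.δ0
  have h1 := N.δν
  have h2 := N.δξ
  have h3 := N.φν
  have h4 := N.φμ
  have hC := N.qC
  have st := N.sc (v + 1) (by omega) le_rfl
  have pt := N.pc (v + 1) (by omega) le_rfl
  have sv : ∀ l, r₀ ≤ l → l ≤ v → s l = sn w l := fun l l0 l1 => N.sc l l0 (by omega)
  have pv : ∀ l, r₀ ≤ l → l ≤ v → sn w l - φ ≤ p l ∧ p l ≤ sn w l := fun l l0 l1 =>
    N.pc l l0 (by omega)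
  have e1 : ∀ l, r₀ ≤ l → dnV s n n' w (q - ν / 4) r₀ l 0 = s l + (q - ν / 4) := fun l l0 => by
    unfold dnV
    rw [if_neg (by omega)]
    push_cast
    ring
  have e2 : ∀ l, r₀ ≤ l → dnV s n n' w (q - ν / 4) r₀ l 1 = s l - w + (q - ν / 4) :=
    fun l l0 => by
    unfold dnV
    rw [if_neg (by omega)]
    push_cast
    ring
  have e4 : enN s w (q - ν / 2) v 0 = s (v + 1) + (q - ν / 2) := by
    unfold enN
    push_cast
    ring
  have e5 : enN s w (q - ν / 2) v 1 = s (v + 1) - w + (q - ν / 2) := by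
    unfold enN
    push_cast
    ring
  have e6 : ∀ l, nvV s w q (q + ξ + μ + ν) l 0 = s l + q := fun l => by
    unfold nvV
    rw [if_pos rfl]
  have e7 : ∀ l, nvV s w q (q + ξ + μ + ν) l 1 = s l + (q + ξ + μ + ν) - w := fun l => by
    unfold nvV
    rw [if_neg one_ne_zero]
  exact
    { rv := hr
      ps := fun l hl => by
        rcases Nat.lt_or_ge l r₀ with h0 | h0
        · obtain ⟨b1, b2, -, -⟩ := N.base l h0
          exact ⟨b1, b2⟩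
        · exact ⟨N.p0 l h0 hl, by rw [N.sc l h0 hl]; exact (N.pc l h0 hl).2⟩
      w0 := hw0
      δ0 := hδ
      w1 := hw1
      q0 := hq
      ξ0 := hξ
      μ0 := hμ
      n0 := fun l l0 l1 => by
        rw [e1 l l0]
        have a1 := (pv l l0 l1).1
        have a2 := sv l l0 l1
        linarith only [h3, hν, a1, a2]
      n1 := fun l l0 l1 => by
        rw [e2 l l0]
        have a1 := (pv l l0 l1).1
        have a2 := sv l l0 l1
        linarith only [h3, h2, hμ, hν, a1, a2]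
      x0 := fun l l0 l1 => by
        rw [e1 l l0]
        have a1 := (pv l l0 l1).1
        have a2 := sv l l0 l1
        linarith only [h3, hν, a1, a2]
      x1 := fun l l0 l1 => by
        rw [e2 l l0]
        have a1 := (pv l l0 l1).1
        have a2 := sv l l0 l1
        linarith only [h3, h2, hμ, hν, a1, a2]
      u0 := fun l l0 l1 => by
        unfold ntV
        have a1 := (pv l l0 l1).1
        have a2 := sv l l0 l1
        linarith only [h3, hν, a1, a2]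
      u1 := fun l l0 l1 => by
        unfold ntV
        have a1 := (pv l l0 l1).1
        have a2 := sv l l0 l1
        linarith only [h3, h2, hμ, hν, a1, a2]
      m0 := by rw [e4]; linarith only [h3, hν, pt.1, st]
      m1 := by rw [e5]; linarith only [h3, h1, hν, pt.1, st]
      mf := by linarith only [ht, hC, hμ, st]
      f0 := fun l l0 l1 => by
        have a1 := hv l l0 l1 0 (by omega)
        push_cast at a1
        have a2 := sv l l0 l1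
        linarith only [a1, hC, a2]
      f1 := fun l l0 l1 => by
        have a1 := hv l l0 l1 1 le_rfl
        push_cast at a1
        have a2 := sv l l0 l1
        linarith only [a1, hC, a2]
      v0 := fun l _ _ => by rw [e6]
      v1 := fun l _ _ => by rw [e7]; linarith only [hν]
      b0 := fun l _ _ => le_rfl
      b1 := fun l l0 l1 => by
        have a1 := (pv l l0 l1).1
        have a2 := sv l l0 l1
        linarith only [a1, a2, h4]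
      b2 := fun l _ _ => by rw [e6]
      c0 := fun l hl => by
        obtain ⟨-, -, b1, -⟩ := N.base l hl
        exact b1
      c1 := fun l hl => by
        obtain ⟨-, -, -, b1⟩ := N.base l hl
        exact b1
      d0 := le_rfl
      dv := fun l _ _ j' _ => rfl
      r1 := hP₁
      r2 := hP₂ }

/-- **The closed gradients at a box.** -/
theorem cv_box (r₀ v K : ℕ) {h σ ε : ℝ} (hh : 0 < h) (hh1 : h ≤ 1) (hσ : 0 < σ) (hε : 0 < ε) :
    ∃ θ : ℝ, 0 < θ ∧ θ ≤ 1 ∧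
      ∀ {m : ℕ} {γ : ∀ J : ℕ, Fam m J → Type} {S : PCl m}
        {y : ∀ (J : ℕ) (F : Fam m J), F.Ω → γ J F} {c : ℕ → Fin m}
        {sn : ℝ → ℕ → ℝ} {a : ℕ → ℝ} {w j x δW q ξ μ ν : ℝ} {p s n n' : ℕ → ℝ} {P₁ P₂ η : ℝ}
        (_ : CvX S y c r₀ v sn a w j x δW q ξ μ ν p s n n' P₁ P₂ η)
        (_ : CvR S y c r₀ v K sn a w x q ξ μ ν p s n n' h P₁ P₂ η),
        0 ≤ η → η ≤ θ * ξ → μ ≤ θ * ξ → ν ≤ θ * ξ → P₂ - P₁ ≤ (1 + θ) * ξ →
        CGv S c r₀ v K w δW j x p s n n' q ξ μ h σ ε := by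
  obtain ⟨θ, h1, h2, H⟩ := cv_cls r₀ v K hh hh1 hσ hε
  refine ⟨θ, h1, h2, ?_⟩
  intro m γ S y c sn a w j x δW q ξ μ ν p s n n' P₁ P₂ η X R hη0 hη hμ hν hP
  exact H X.num (X.cc R) hη0 hη hμ (by linarith) hP

/-- **The numbers and the mutual informations at almost every `g`.** -/
theorem cv_ae (h : GCh S (fun J F => ptr F J) y c r₀ (v + 1) s₀ A B Λ sn G)
    (hn : HNum S (fun J F => ptr F J) y c r₀ (v + 1) s₀ (PG G A s₀) (B - s₀) Λ (whG G A s₀)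
      (scG sn G A s₀)) (hr : r₀ ≤ v) :
    ∀ᵐ g : ℝ, A < g → g < B → ∀ Sl : ℕ → ℝ, SlpG sn r₀ (v + 1) G g Sl → 1 < Sl (v + 1) →
      ∀ e ν₀ C δ : ℝ, 0 < e → 0 < ν₀ → 0 < C → 0 < δ → ∃ φ : ℝ, 0 < φ ∧ ∃ a : ℕ → ℝ,
        (∀ l, r₀ ≤ l → l ≤ v + 1 → a l ∈ G ∧ g < a l ∧ a l < g + δ ∧ a l < B) ∧
        ∃ ρ : ℝ, 0 < ρ ∧ ∃ (lv : ℕ → ℝ) (σ₀ : ℝ),
          FarR sn G r₀ (v + 1) a Λ (g - ρ) (g + ρ) lv σ₀ ∧ C * ρ ≤ σ₀ / 2 ∧
          C * ρ + σ₀ / 2 ≤ Λ ∧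
          ∀ R : ℝ, 0 < R → R < ρ → ∀ w ∈ G, ∀ j x : ℝ, g - R ≤ w → j ≤ g + R → x ≤ g + R →
            ∀ (δW q ξ μ ν : ℝ) (p s n n' : ℕ → ℝ) (P₁ P₂ : ℝ), ν₀ * R ≤ ν →
            Bx1 sn r₀ v Sl w j x δW q ξ μ ν (φ * R) (C * R) p s n n' →
            P₁ < p (v + 1) + q → s (v + 1) + q + ξ ≤ P₂ →
            CvX S y c r₀ v sn a w j x δW q ξ μ ν p s n n' P₁ P₂ (e * R) := by
  filter_upwards [mj_Gr h hn (Nat.le_succ_of_le hr)] with g hg hgA hgB Sl hSl hσ e ν₀ C δ he hν hC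
    hδ
  have hφ : (0 : ℝ) < ν₀ / 8 / (16 * (((v + 1 : ℕ) : ℝ) + 2)) := by positivity
  obtain ⟨a, ha, lv, σ₀, ρ₁, hρ₁, hρA, hρB, hF, hC1, hC2, -, H⟩ :=
    hg hgA hgB Sl hSl e (ν₀ / 8) C δ _ he (by positivity) hC hδ hφ.le (by
      rw [mul_div_cancel₀ _ (by positivity)])
  obtain ⟨φ, hφe⟩ : ∃ φ, φ = ν₀ / 8 / (16 * (((v + 1 : ℕ) : ℝ) + 2)) := ⟨_, rfl⟩
  rw [← hφe] at hφ H
  obtain ⟨hb1, hb2, -, hb3⟩ := ha (v + 1) (by omega) le_rfl
  obtain ⟨γ₀, hγ₀, ρ₂, hρ₂, Hf⟩ := far_T hSl (by omega) hσ hgA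
    (h.mono (v + 1) (by omega) le_rfl) hb1 hb2 hb3
  obtain ⟨ρ₃, hρ₃, Hs⟩ := hSl.sl (v + 1) (by omega) le_rfl (ν₀ / 2) (by positivity)
  have hσ0 := hF.σ0
  obtain ⟨ρ, hρ, r1, r2, r3, r4, r5⟩ : ∃ ρ : ℝ, 0 < ρ ∧ ρ ≤ ρ₁ ∧ ρ ≤ ρ₂ ∧ ρ ≤ ρ₃ ∧
      C * ρ < γ₀ ∧ (1 + C) * ρ ≤ B - g := by
    have q1 : 0 < B - g := by linarith
    refine ⟨min (min ρ₁ ρ₂) (min ρ₃ (min (γ₀ / (2 * C)) ((B - g) / (1 + C)))), by positivity,
      (min_le_left _ _).trans (min_le_left _ _), (min_le_left _ _).trans (min_le_right _ _),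
      (min_le_right _ _).trans (min_le_left _ _), ?_, ?_⟩
    · have h1 := (min_le_right (min ρ₁ ρ₂) (min ρ₃ (min (γ₀ / (2 * C)) ((B - g) / (1 + C))))).trans
        ((min_le_right _ _).trans (min_le_left _ _))
      have h2 := mul_le_mul_of_nonneg_left h1 hC.le
      have h3 : C * (γ₀ / (2 * C)) = γ₀ / 2 := by field_simp
      linarith
    · have h1 := (min_le_right (min ρ₁ ρ₂) (min ρ₃ (min (γ₀ / (2 * C)) ((B - g) / (1 + C))))).trans
        ((min_le_right _ _).trans (min_le_right _ _))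
      have h2 := mul_le_mul_of_nonneg_left h1 (show (0 : ℝ) ≤ 1 + C by linarith)
      have h3 : (1 + C) * ((B - g) / (1 + C)) = B - g := by field_simp
      linarith
  have hCρ : C * ρ ≤ C * ρ₁ := mul_le_mul_of_nonneg_left r1 hC.le
  have hF' := hF.mono (A'' := g - ρ) (B'' := g + ρ) (by linarith) (by linarith)
  refine ⟨φ, hφ, a, ha, ρ, hρ, lv, σ₀, hF', by linarith, by linarith, ?_⟩
  intro R hR hRρ w hw j x w1 j2 x2 δW q ξ μ ν p s n n' P₁ P₂ hνR N hP₁ hP₂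
  have hCR : C * R < C * ρ := mul_lt_mul_of_pos_left hRρ hC
  have hCR' : (1 + C) * R ≤ (1 + C) * ρ := mul_le_mul_of_nonneg_left hRρ.le (by linarith)
  have eCR : (1 + C) * R = R + C * R := by ring
  have hνR0 : 0 < ν₀ * R := by positivity
  have eκ : ν₀ / 8 * R = ν₀ * R / 8 := by ring
  have hq := N.q0
  have hξ := N.ξ0
  have hμ := N.μ0
  have hν' := N.ν0
  have hwj := N.wj
  have hwx := N.wx
  have hqC := N.qC
  have hδν := N.δν
  have hA0 := h.A0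
  have hB1 := h.B1
  have hwB : w < B := by linarith
  have st := N.sc (v + 1) (by omega) le_rfl
  have hσt := hSl.nn (v + 1) (by omega) le_rfl
  have hqν : ν ≤ q := by
    have k1 := N.jn (v + 1) (by omega) le_rfl
    have k2 := mul_nonneg hσt (show 0 ≤ j - w by linarith)
    linarith only [k1, k2]
  -- the near digits
  have hd1 : q - ν / 4 ≤ C * R := by linarith
  have hD : ∀ l, r₀ ≤ l → l < v + 1 → ∀ j' ≤ 1,
      sn w l - (j' : ℕ) * w + (q - ν / 4) ≤ dnV s n n' w (q - ν / 4) r₀ l j' ∧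
      dnV s n n' w (q - ν / 4) r₀ l j' ≤ sn w l - (j' : ℕ) * w + C * R := by
    intro l l0 l1 j' hj'
    have e1 : dnV s n n' w (q - ν / 4) r₀ l j' = sn w l - (j' : ℝ) * w + (q - ν / 4) := by
      unfold dnV
      rw [if_neg (by omega), N.sc l l0 l1.le]
    rw [e1]
    constructor <;> linarith
  have hp := N.pc
  have Mj := H R hR (by linarith) w hw j w1 hwj j2 p hp (q - ν / 4)
    (dnV s n n' w (q - ν / 4) r₀) hd1 (fun l l0 l1 => by
      have k1 := N.jn l l0 (by omega)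
      rw [eκ]
      linarith) hD
  have Mx := H R hR (by linarith) w hw x w1 hwx x2 p hp (q - ν / 4)
    (dnV s n n' w (q - ν / 4) r₀) hd1 (fun l l0 l1 => by
      have k1 := N.xn l l0 (by omega)
      rw [eκ]
      linarith) hD
  obtain ⟨f1, f2⟩ := Hf w hw (by linarith) (by linarith)
  have hT : ∀ j' ≤ 1, enN s w (q - ν / 2) v j' ≤ nD sn a (v + 1) j' := by
    intro j' hj'
    unfold enN nD
    rcases Nat.eq_zero_or_pos j' with rfl | hj
    · push_cast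
      linarith
    · obtain rfl : j' = 1 := by omega
      push_cast
      linarith
  have hE : ∀ j' ≤ 1, (∀ o ∈ G, A ≤ o → o ≤ j → sn o (v + 1) - (j' : ℕ) * o ≤
      enN s w (q - ν / 2) v j') ∧
      enN s w (q - ν / 2) v j' ≤ sn w (v + 1) - (j' : ℕ) * w + C * R ∧
      enN s w (q - ν / 2) v j' ≤ nD sn a (v + 1) j' := by
    intro j' hj'
    have hj0 : (0 : ℝ) ≤ j' := Nat.cast_nonneg j'
    have hj1 : (j' : ℝ) ≤ 1 := by exact_mod_cast hj'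
    refine ⟨fun o ho o1 o2 => ?_, ?_, hT j' hj'⟩
    · unfold enN
      rcases le_or_gt w o with k | k
      · have k1 := (abs_le.1 (Hs R hR (by linarith) w hw o ho w1 k (by linarith))).2
        have k2 := N.jn (v + 1) (by omega) le_rfl
        have k3 : Sl (v + 1) * (o - w) ≤ Sl (v + 1) * (j - w) :=
          mul_le_mul_of_nonneg_left (by linarith) hσt
        have k4 : (j' : ℝ) * w ≤ (j' : ℝ) * o := mul_le_mul_of_nonneg_left k hj0
        have k5 : ν₀ / 2 * R = ν₀ * R / 2 := by ring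
        linarith
      · have k1 := h.mono (v + 1) (by omega) le_rfl o ho w hw o1 k.le hwB
        have k4 : (1 - (j' : ℝ)) * o ≤ (1 - (j' : ℝ)) * w :=
          mul_le_mul_of_nonneg_left k.le (by linarith)
        linarith
    · unfold enN
      rw [st]
      linarith
  exact
    { num := bx_num N hr (by linarith) (by linarith) (fun l l0 l1 j' hj' => by
        have k1 := hF'.far hw (by linarith) (by linarith) l0 (Nat.lt_succ_of_le l1) hj'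
        have k2 := hF'.lv0 l l0 (Nat.lt_succ_of_le l1)
        linarith) (by
        unfold nD
        push_cast
        linarith) hP₁ hP₂
      tm := h.tm
      wj := hwj
      j1 := by linarith
      wx := hwx
      x1 := by linarith
      mj := Mj.2 (by
        have k1 := N.jn (v + 1) (by omega) le_rfl
        rw [eκ]
        linarith) _ hE
      mx := Mx.1 }

/-- **The closed gradients in the directions of the places `r₀, …, v` at almost every `g`**: in all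
small boxes the inputs `CvR` are enough. The constant `θ` depends on `r₀`, `v`, `K`, `h`, `σ`, `ε`
only. -/
theorem cv_ge (v K : ℕ) {r₀ : ℕ} {hd σ ε : ℝ} (hh : 0 < hd) (hh1 : hd ≤ 1) (hσ : 0 < σ)
    (hε : 0 < ε) :
    ∃ θ : ℝ, 0 < θ ∧ θ ≤ 1 ∧
      ∀ {m : ℕ} {γ : ∀ J : ℕ, Fam m J → Type} {S : PCl m}
        {y : ∀ (J : ℕ) (F : Fam m J), F.Ω → γ J F} {c : ℕ → Fin m}
        {s₀ A B Λ : ℝ} {sn : ℝ → ℕ → ℝ} {G : Set ℝ}
        (_ : GCh S (fun J F => ptr F J) y c r₀ (v + 1) s₀ A B Λ sn G)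
        (_ : HNum S (fun J F => ptr F J) y c r₀ (v + 1) s₀ (PG G A s₀) (B - s₀) Λ (whG G A s₀)
          (scG sn G A s₀)) (_ : r₀ ≤ v),
      ∀ᵐ g : ℝ, A < g → g < B → ∀ Sl : ℕ → ℝ, SlpG sn r₀ (v + 1) G g Sl → 1 < Sl (v + 1) →
        ∀ ξ₀ ν₀ C δ : ℝ, 0 < ξ₀ → 0 < ν₀ → 0 < C → 0 < δ →
        ∃ φ : ℝ, 0 < φ ∧ ∃ a : ℕ → ℝ,
        (∀ l, r₀ ≤ l → l ≤ v + 1 → a l ∈ G ∧ g < a l ∧ a l < g + δ ∧ a l < B) ∧
        ∃ ρ : ℝ, 0 < ρ ∧ ∃ (lv : ℕ → ℝ) (σ₀ : ℝ),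
          FarR sn G r₀ (v + 1) a Λ (g - ρ) (g + ρ) lv σ₀ ∧ C * ρ ≤ σ₀ / 2 ∧
          C * ρ + σ₀ / 2 ≤ Λ ∧
          ∀ R : ℝ, 0 < R → R < ρ → ∀ w ∈ G, ∀ j x : ℝ, g - R ≤ w → j ≤ g + R → x ≤ g + R →
            ∀ (δW q ξ μ ν : ℝ) (p s n n' : ℕ → ℝ), ξ₀ * R ≤ ξ → ν₀ * R ≤ ν →
            μ ≤ θ * ξ → ν ≤ θ * ξ →
            Bx1 sn r₀ v Sl w j x δW q ξ μ ν (φ * R) (C * R) p s n n' →
            CvR S y c r₀ v K sn a w x q ξ μ ν p s n n' hd (s (v + 1) + q - θ * ξ)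
              (s (v + 1) + q + ξ) (θ * ξ₀ * R) →
            CGv S c r₀ v K w δW j x p s n n' q ξ μ hd σ ε := by
  obtain ⟨θ, a1, a2, H⟩ := cv_box r₀ v K hh hh1 hσ hε
  refine ⟨θ, a1, a2, ?_⟩
  intro m γ S y c s₀ A B Λ sn G h hn hr
  filter_upwards [cv_ae h hn hr] with g hg hgA hgB Sl hSl hσ' ξ₀ ν₀ C δ hξ hν hC hδ
  obtain ⟨φ, hφ, a, ha, ρ, hρ, lv, σ₀, hF, c1, c2, X⟩ :=
    hg hgA hgB Sl hSl hσ' (θ * ξ₀) ν₀ C δ (by positivity) hν hC hδ
  refine ⟨φ, hφ, a, ha, ρ, hρ, lv, σ₀, hF, c1, c2, ?_⟩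
  intro R hR hRρ w hw j x w1 j2 x2 δW q ξ μ ν p s n n' hξR hνR hμθ hνθ N RR
  have hξ0 := N.ξ0
  have hν0 := N.ν0
  have hφν := N.φν
  have hp := (N.pc (v + 1) (by omega) le_rfl).1
  have hs := N.sc (v + 1) (by omega) le_rfl
  refine H (X R hR hRρ w hw j x w1 j2 x2 δW q ξ μ ν p s n n' (s (v + 1) + q - θ * ξ)
    (s (v + 1) + q + ξ) hνR N (by linarith) le_rfl) RR (by positivity) ?_ hμθ hνθ (by linarith)
  rw [mul_assoc]
  exact mul_le_mul_of_nonneg_left hξR a1.le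

end Pool.C1V35
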