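import Pool.Agent.H35.C1V.Cva
import Pool.Agent.H57.AVG.C1e
import Pool.Agent.H64.LV.Ev

/-!
# The inputs of the average for several moved places, on one event

`CvE`: the values of the inputs on one event; all the places `r₀, …, v` are moved. `CvE.prv`: the
inputs `PrV` of the average, target `v + 1`, for charts of the moved places which are affine.
-/

set_option autoImplicit false

namespace Pool.C1V35

open Finset Real MvPolynomial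
open Pool.Agent.H49.Ent Pool.Agent.H32.Dense Pool.STK Pool.KA Pool.KSAT Pool.K2S Pool.PB Pool.S6C
open Pool.GEN Pool.CHT Pool.CHX Pool.ISO Pool.LA91 Pool.AVG71 Pool.AVG5 Pool.D2F2 Pool.AVG57
open Pool.PB.Trl (rt rt_mem t_rt)
open Pool.D2R (hgt gnh GrdE chs)
open Pool.KVA (MI)
open Pool.LV64

variable {m J : ℕ}

/-- The side information. -/
noncomputable def ycV (F : Fam m J) (c : ℕ → Fin m) (r₀ w K : ℕ)
    (H : LnT F → ℕ → MvPolynomial (Option (Fin m)) ℝ) (nc nc' : ℕ → ℕ) {υ : Type}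
    (y : F.Ω → υ) (ω : F.Ω) : ((ℕ × F.ζ) × ((Fin m → ℤ) × (Fin m → ℤ))) ×
      (υ × (Fin (r₀ + 1) → (Fin (K + 1) → ℤ) × (Fin (K + 1) → ℤ))) :=
  (yv c 0 J F ω, (y ω, sdL F c r₀ w K H nc nc' ω))

/-- The digits of the orders `j'` of the moved places. -/
noncomputable def jto (F : Fam m J) (c : ℕ → Fin m) (r₀ v w : ℕ)
    (H : LnT F → ℕ → MvPolynomial (Option (Fin m)) ℝ) (j' : ℕ) (N : ℕ → ℝ) (ω : F.Ω)
    (j : Fin (v + 1 - r₀)) : ℤ :=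
  ⌊(2 : ℝ) ^ (N (mvR r₀ v j) * J) * ojet F (c (mvR r₀ v j)) j' (H (slam F w ω) (mvR r₀ v j)) ω⌋

/-- **The values of the inputs on one event**, for the law `p`. `η`: the error (in bits). -/
structure CvE (F : Fam m J) (c : ℕ → Fin m) (r₀ v K M : ℕ) (w : ℝ) (g : ℕ)
    (H : LnT F → ℕ → MvPolynomial (Option (Fin m)) ℝ) {ζ ρ₁ ρ₂ υ : Type} (zw : F.Ω → ζ)
    (zj : F.Ω → ρ₁) (zx : F.Ω → ρ₂) (y : F.Ω → υ) (p : F.Ω → ℝ) (n n' nt : ℕ → ℝ) (Nt : ℝ)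
    (nb : ℕ → ℝ) (Df Dn Dx Dd : ℕ → ℕ → ℝ) (Ef En : ℕ → ℝ) (Nv : ℕ → ℕ → ℝ) (η : ℝ) : Prop where
  yW : ∀ ω ν, y ω = y ν → F.Z ω = F.Z ν ∧ F.T ω = F.T ν
  yf : CH p y (fun ω => (jet2 F c ⌊w * J⌋₊ H 0 r₀ (nd n n' w) ω, (zw ω, F.W ω))) ≤ η
  y0 : ∀ l < r₀, CH p (cod F ⌊w * J⌋₊ (fun s => H s l) (c l) ⌊n l * J⌋₊ 0 K)
    (fun ω => (zw ω, y ω)) ≤ η
  y1 : ∀ l < r₀, CH p (cod F ⌊w * J⌋₊ (fun s => H s l) (c l) ⌊n' l * J⌋₊ 1 K)
    (fun ω => (zw ω, y ω)) ≤ η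
  mj : MI p zj (fun ω => (jet2 F c ⌊w * J⌋₊ H r₀ (v + 1) Df ω,
      pr2 F c ⌊w * J⌋₊ H (v + 1) Ef ω))
    (fun ω => ((jet2 F c ⌊w * J⌋₊ H r₀ (v + 1) Dn ω, pr2 F c ⌊w * J⌋₊ H (v + 1) En ω),
      (zw ω, y ω))) ≤ η
  mx : MI p zx (jet2 F c ⌊w * J⌋₊ H r₀ (v + 1) Df)
    (fun ω => (jet2 F c ⌊w * J⌋₊ H r₀ (v + 1) Dx ω, (zw ω, y ω))) ≤ η
  dj : CH p (cod F ⌊w * J⌋₊ (fun s => H s (v + 1)) (c (v + 1)) g 1 K)
    (fun ω => (jet2 F c ⌊w * J⌋₊ H r₀ (v + 1) Dd ω, (zw ω, y ω))) ≤ η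
  jt : CH p (Pool.AVG71.cod F ⌊w * J⌋₊ 0 K (2 ^ (Nt * J)) (c (v + 1)) (fun s => H s (v + 1))
    (fun P => P)) (fun ω => (jetM F c ⌊w * J⌋₊ H r₀ (v + 1) M
      (fun l j' => nt l - (j' : ℝ) * w) ω, (zx ω, y ω))) ≤ η
  vf : (∑ j, (nb (mvR r₀ v j) - Nv (mvR r₀ v j) 0)) * Real.log 2 * J - η ≤
    CH p (jto F c r₀ v ⌊w * J⌋₊ H 0 nb) (fun ω => (jto F c r₀ v ⌊w * J⌋₊ H 0
      (fun l => Nv l 0) ω, (jto F c r₀ v ⌊w * J⌋₊ H 1 (fun l => Nv l 1) ω,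
        (zx ω, (zw ω, y ω)))))

/-- The total error. -/
noncomputable def eV (v K M : ℕ) (ρ η : ℝ) : ℝ := eT v K M ρ η + (v + 1) * cL K

section

variable {F : Fam m J} {c : ℕ → Fin m} {r₀ v w K D : ℕ}
  {H : LnT F → ℕ → MvPolynomial (Option (Fin m)) ℝ} {p : F.Ω → ℝ}

/-- The jets of the chain and the jets of the moved places. -/
theorem jetm_jet2 {N : ℕ → ℕ → ℝ} {ω ν : F.Ω} :
    jet2 F c w H r₀ (v + 1) N ω = jet2 F c w H r₀ (v + 1) N ν ↔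
      jetm F c (mvR r₀ v) w H (fun j => N (mvR r₀ v j)) ω =
        jetm F c (mvR r₀ v) w H (fun j => N (mvR r₀ v j)) ν := by
  constructor
  · intro h
    funext i
    obtain ⟨j, ⟨a, ha⟩⟩ := i
    have h2 := congrFun (congrFun h (mvR r₀ v j)) a
    unfold jet2 at h2
    have h3 : r₀ ≤ mvR r₀ v j ∧ mvR r₀ v j < v + 1 ∧ a ≤ 1 :=
      ⟨mvR_lo j, Nat.lt_succ_of_le (mvR_hi j), by omega⟩
    rw [if_pos h3, if_pos h3] at h2
    exact h2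
  · intro h
    funext l j'
    unfold jet2
    by_cases h2 : r₀ ≤ l ∧ l < v + 1 ∧ j' ≤ 1
    · rw [if_pos h2, if_pos h2]
      obtain ⟨j, hj⟩ := mvR_ex (v := v) h2.1 (Nat.lt_succ_iff.1 h2.2.1)
      subst hj
      exact congrFun h (j, ⟨j', by omega⟩)
    · rw [if_neg h2, if_neg h2]

/-- The jets from positions and velocities. -/
theorem jetm_jto {N : ℕ → ℕ → ℝ} {ω ν : F.Ω} :
    jetm F c (mvR r₀ v) w H (fun j => N (mvR r₀ v j)) ω =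
        jetm F c (mvR r₀ v) w H (fun j => N (mvR r₀ v j)) ν ↔
      (jto F c r₀ v w H 0 (fun l => N l 0) ω = jto F c r₀ v w H 0 (fun l => N l 0) ν ∧
        jto F c r₀ v w H 1 (fun l => N l 1) ω = jto F c r₀ v w H 1 (fun l => N l 1) ν) := by
  constructor
  · intro h
    exact ⟨funext fun j => congrFun h (j, 0), funext fun j => congrFun h (j, 1)⟩
  · rintro ⟨h0, h1⟩
    funext i
    obtain ⟨j, ⟨a, ha⟩⟩ := i
    have : a = 0 ∨ a = 1 := by omega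
    rcases this with h | h
    · subst h
      exact congrFun h0 j
    · subst h
      exact congrFun h1 j

/-- The jets of all orders over affine charts. -/
theorem jetM_aff {M : ℕ} (hA : ∀ l, r₀ ≤ l → l ≤ v → ∀ s, (H s l).totalDegree ≤ 1)
    {N : ℕ → ℕ → ℝ} {ω ν : F.Ω}
    (h : jetm F c (mvR r₀ v) w H (fun j => N (mvR r₀ v j)) ω =
      jetm F c (mvR r₀ v) w H (fun j => N (mvR r₀ v j)) ν) :
    jetM F c w H r₀ (v + 1) M N ω = jetM F c w H r₀ (v + 1) M N ν := by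
  funext l j'
  unfold jetM
  by_cases h2 : r₀ ≤ l ∧ l < v + 1 ∧ j' ≤ M
  swap
  · rw [if_neg h2, if_neg h2]
  rw [if_pos h2, if_pos h2]
  have hl : l ≤ v := Nat.lt_succ_iff.1 h2.2.1
  rcases Nat.lt_or_ge j' 2 with h3 | h3
  · obtain ⟨j, hj⟩ := mvR_ex (v := v) h2.1 hl
    subst hj
    exact congrFun h (j, ⟨j', h3⟩)
  · rw [Pool.CDX.ojet_aff (hA l h2.1 hl _) h3, Pool.CDX.ojet_aff (hA l h2.1 hl _) h3]

/-- The code of the orders `≥ 2` over affine charts. -/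
theorem cod_aff (hw : w ≤ J) {l : ℕ} (hA : ∀ s, (H s l).totalDegree ≤ 1) {N a₀ : ℕ}
    (ha : 2 ≤ a₀) (ω : F.Ω) : cod F w (fun s => H s l) (c l) N a₀ K ω = fun _ => 0 := by
  funext b
  unfold Pool.AVG57.cod
  by_cases hb : a₀ ≤ (b : ℕ)
  · rw [if_pos hb]
    have h1 := dv_aff (c := c) F (le_refl w) hw hA ω (b := b) (by omega)
    have h2 : (dv w (fun s (_ : Fin m) => H (upw w w s) l) (c l) (slam F w ω)) =
        dv w (fun s (_ : Fin m) => H s l) (c l) (slam F w ω) := by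
      unfold dv
      simp only [upw_slam F (le_refl w) hw ω]
    rw [h2] at h1
    rw [h1, mul_zero, Int.floor_zero]
  · rw [if_neg hb]

end

section

variable {F : Fam m J} {c : ℕ → Fin m} {r₀ v K M : ℕ} {w : ℝ} {g q W X mm D ks nn : ℕ}
  {γ : ℕ → ℕ} {B : F.Ω → Prop} {G : ℕ → PtT F → ℕ → MvPolynomial (Option (Fin m)) ℝ}
  {H : LnT F → ℕ → MvPolynomial (Option (Fin m)) ℝ} {ζ ρ₁ ρ₂ υ : Type} {zw : F.Ω → ζ}
  {zj : F.Ω → ρ₁} {zx : F.Ω → ρ₂} {y : F.Ω → υ} {p : F.Ω → ℝ} {n n' nt : ℕ → ℝ} {Nt : ℝ}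
  {nb : ℕ → ℝ} {Df Dn Dx Dd : ℕ → ℕ → ℝ} {Ef En : ℕ → ℝ} {Nv : ℕ → ℕ → ℝ} {η U ρ : ℝ}

/-- **The gradient.** -/
theorem grd_V (hw0 : 0 ≤ w) {nc nc' : ℕ → ℕ} {wn : ℕ} (wJ : wn ≤ J) (hr : r₀ ≤ v)
    (deg : ∀ s l, (H s l).totalDegree ≤ D) (DK : D + 1 ≤ K) (cls : Clsd F (v + 2) wn B (G 0) H)
    (grd : GrdE F c 0 (v + 1) ks nn q X γ U B G) (kn : ks ≤ nn)
    (cn : ∀ l < r₀, γ l + (q + X) + 2 * K ≤ nc l) :
    GrdV F c (mvR r₀ v) (fun _ : Fin 1 => v + 1) (fun _ => q) (fun _ => X) q X γ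
      (U + 8 * (v + 1 : ℕ) * U) B (G 0) (fun ω _ j => gnh F c (v + 1) γ (G 0) (G nn) ω (mvR r₀ v j))
      (zxs F c 0 W zw (sdL F c r₀ wn K H nc nc')) (chs F (v + 1) ks G) (chs F (v + 1) nn G) := by
  have hcl : Clsd F (r₀ + 2) wn B (G 0) H := fun ω hω l hl => cls ω hω l (by omega)
  have h1 : GrdA F c (mvR r₀ v) (v + 1) q X γ (U + 8 * (v + 1 : ℕ) * U) B (G 0)
      (fun ω j => gnh F c (v + 1) γ (G 0) (G nn) ω (mvR r₀ v j))
      (zxs F c 0 W zw (sdL F c r₀ wn K H nc nc')) (chs F (v + 1) ks G) (chs F (v + 1) nn G) := by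
    refine toA0 (mv := mvR r₀ v) grd (mvR_inj r₀ v) (fun j => Nat.lt_succ_of_le (mvR_hi j))
      (fun ω ν hω hν ht hz _ l hl hj => ?_) kn le_rfl
    have h1 : l < r₀ := by
      by_contra h
      obtain ⟨j, hj'⟩ := mvR_ex (v := v) (not_lt.1 h) (Nat.lt_succ_iff.1 hl)
      exact hj j hj'
    have h2 := hgt_sd wJ deg DK hcl hω hν (T_of_t F ht) (AvL.eqz hz).2 h1 (cn l h1)
    refine h2.trans ?_
    refine div_le_div_of_nonneg_right (by norm_num) (by positivity)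
  refine ⟨h1.U0, fun ω hω _ j => h1.bm ω hω j, fun ω ν a b e1 e2 e3 e4 _ j =>
    h1.bj ω ν a b e1 e2 e3 e4 j, fun ω ν a b e1 e2 e3 e4 _ j => h1.bx ω ν a b e1 e2 e3 e4 j,
    fun ω ν a b e1 e2 e3 e4 _ => ?_⟩
  have h2 := h1.nx ω ν a b e1 e2 e3 e4
  have pX : (0 : ℝ) < 2 ^ X := by positivity
  rw [← mul_sub, abs_mul, abs_of_pos pX, mul_comm]
  exact (le_div_iff₀ pX).1 h2

/-- **The inputs of the average.** -/
theorem CvE.prv (E : CvE F c r₀ v K M w g H zw zj zx y p n n' nt Nt nb Df Dn Dx Dd Ef En Nv η)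
    (hη : 0 ≤ η) (hr : r₀ ≤ v) (hw0 : 0 ≤ w) (hn0 : ∀ l < r₀, 0 ≤ n l)
    (hA : ∀ l, r₀ ≤ l → l ≤ v → ∀ s, (H s l).totalDegree ≤ 1)
    (hDd : ∀ l, r₀ ≤ l → l ≤ v → ∀ j' ≤ 1, Dd l j' = Df l j')
    (hg : g = γ (v + 1) + q + X)
    (hρ : 0 ≤ ρ) (hNt : (2 : ℝ) ^ (γ (v + 1) + q) ≤ ρ * 2 ^ (Nt * J))
    (law : IsLaw p) (sup : ∀ ω, 0 < p ω → B ω)
    (wW : ⌊w * J⌋₊ ≤ W) (WJ : W ≤ J) (deg : ∀ s l, (H s l).totalDegree ≤ D) (DK : D + 1 ≤ K)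
    (KX : (K : ℝ) ≤ 2 ^ (X + mm)) (cls : Clsd F (v + 2) ⌊w * J⌋₊ B (G 0) H)
    (grd : GrdE F c 0 (v + 1) ks nn q X γ U B G) (kn : ks ≤ nn)
    (mU : U + 8 * (v + 1 : ℕ) * U + 1 ≤ 2 ^ mm) (zL : Det p (slam F ⌊w * J⌋₊) zw)
    (cn : ∀ l < r₀, γ l + (q + X) + 2 * K ≤ ⌊n l * J⌋₊)
    (chj : Det p zj (chs F (v + 1) ks G)) (chx : Det p zx (chs F (v + 1) nn G))
    (zwx : Det p zx zw)
    (n0 : ∀ l, r₀ ≤ l → l ≤ v → Dn l 0 * J ≤ (γ l + q : ℕ))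
    (n1 : ∀ l, r₀ ≤ l → l ≤ v → Dn l 1 * J + W ≤ (γ l + q + (X + mm) : ℕ))
    (x0 : ∀ l, r₀ ≤ l → l ≤ v → Dx l 0 * J ≤ (γ l + q : ℕ))
    (x1 : ∀ l, r₀ ≤ l → l ≤ v → Dx l 1 * J + W ≤ (γ l + q + (X + mm) : ℕ))
    (u0 : ∀ l, r₀ ≤ l → l ≤ v → nt l * J ≤ (γ l + q : ℕ))
    (u1 : ∀ l, r₀ ≤ l → l ≤ v → (nt l - w) * J + W ≤ (γ l + q + (X + mm) : ℕ))
    (m0 : En 0 * J ≤ (γ (v + 1) + q : ℕ)) (m1 : En 1 * J + W ≤ (γ (v + 1) + q : ℕ))
    (mf : ((γ (v + 1) + q + X : ℕ) : ℝ) ≤ Ef 0 * J)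
    (f0 : ∀ l, r₀ ≤ l → l ≤ v → ((γ l + q + (X + mm) : ℕ) : ℝ) ≤ Df l 0 * J)
    (f1 : ∀ l, r₀ ≤ l → l ≤ v → ((γ l + q + (X + mm) : ℕ) : ℝ) ≤ Df l 1 * J + W)
    (v0 : ∀ l, r₀ ≤ l → l ≤ v → ((γ l + q : ℕ) : ℝ) ≤ Nv l 0 * J)
    (v1 : ∀ l, r₀ ≤ l → l ≤ v → ((γ l + q + (X + mm) : ℕ) : ℝ) ≤ Nv l 1 * J + W)
    (b2 : ∀ l, r₀ ≤ l → l ≤ v → Nv l 0 * J + X ≤ nb l * J)
    {j₀ : ℕ} {ε₀ ψ : ℝ} (hT : TimW F p W j₀ ε₀ ψ) (hψ : ψ * J ≤ eV v K M ρ η) :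
    PrV F c (mvR r₀ v) (fun _ : Fin 1 => v + 1) (fun _ => q) (fun _ => X) q ⌊w * J⌋₊ W X mm D K γ
      B (G 0) H (fun ω _ j => gnh F c (v + 1) γ (G 0) (G nn) ω (mvR r₀ v j))
      (zxs F c 0 W zw (sdL F c r₀ ⌊w * J⌋₊ K H (fun l => ⌊n l * J⌋₊) (fun l => ⌊n' l * J⌋₊)))
      zw (ycV F c r₀ ⌊w * J⌋₊ K H (fun l => ⌊n l * J⌋₊) (fun l => ⌊n' l * J⌋₊) y)
      (chs F (v + 1) ks G) (chs F (v + 1) nn G) zj zx
      (Vm F c (mvR r₀ v) ⌊w * J⌋₊ H (fun j => nb (mvR r₀ v j) * J)) p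
      (fun j => Df (mvR r₀ v j)) (fun j => Dn (mvR r₀ v j)) (fun j => Dx (mvR r₀ v j))
      (fun j j' => nt (mvR r₀ v j) - (j' : ℝ) * w) (fun j => Nv (mvR r₀ v j)) (fun _ => Ef)
      (fun _ => En) (U + 8 * (v + 1 : ℕ) * U) ((v + 1 - r₀ : ℕ) * (X * Real.log 2))
      (eV v K M ρ η) := by
  have h0 := law.nonneg
  have hcS := cS_nonneg K
  have hcD := cD_nonneg K
  have hcL := cL_nonneg K
  have hcM := cM_nonneg K M
  have hρl : 0 ≤ Real.log (2 * (ρ + 1) + 1) := Real.log_nonneg (by linarith)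
  have hJ0 : (0 : ℝ) ≤ J := Nat.cast_nonneg J
  have hv0 : (0 : ℝ) ≤ v := Nat.cast_nonneg v
  have hr0 : (0 : ℝ) ≤ r₀ := Nat.cast_nonneg r₀
  have hrv : (r₀ : ℝ) ≤ v := by exact_mod_cast hr
  have hK0 : (0 : ℝ) ≤ K := Nat.cast_nonneg K
  have hM0 : (0 : ℝ) ≤ M := Nat.cast_nonneg M
  have s1 : ((r₀ : ℝ) + 1) * (2 * η + 2 * cD K) ≤ (v + 1) * (2 * η + 2 * cD K) :=
    mul_le_mul_of_nonneg_right (by linarith) (by positivity)
  have s2 : 2 * (r₀ : ℝ) * cS K ≤ 2 * v * cS K := by nlinarith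
  have t1 : 0 ≤ ((v : ℝ) + 1) * (2 * η + 2 * cD K) := by positivity
  have t2 : 0 ≤ 4 * (v : ℝ) * cS K := by positivity
  have t3 : 0 ≤ ((v : ℝ) + 1) * (M + 1) * cM K M := by positivity
  have t4 : 0 ≤ ((K : ℝ) + 1) * Real.log (2 * (ρ + 1) + 1) := by positivity
  have t5 : 0 ≤ ((v : ℝ) + 1) * cL K := by positivity
  have heV : eV v K M ρ η = η + (v + 1) * (2 * η + 2 * cD K) + 4 * v * cS K + cL K +
    (v + 1) * (M + 1) * cM K M + (K + 1) * Real.log (2 * (ρ + 1) + 1) + (v + 1) * cL K := rfl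
  obtain ⟨wn, hwn⟩ : ∃ wn, wn = ⌊w * J⌋₊ := ⟨_, rfl⟩
  have hwr : (wn : ℝ) ≤ w * J := by rw [hwn]; exact Nat.floor_le (by positivity)
  have hwr' : w * J ≤ wn + 1 := by rw [hwn]; exact (Nat.lt_floor_add_one _).le
  obtain ⟨nc, hnc⟩ : ∃ nc : ℕ → ℕ, nc = fun l => ⌊n l * J⌋₊ := ⟨_, rfl⟩
  obtain ⟨nc', hnc'⟩ : ∃ nc' : ℕ → ℕ, nc' = fun l => ⌊n' l * J⌋₊ := ⟨_, rfl⟩
  have q1 := E.yW
  have q2 := E.yf
  have q3 := E.y0
  have q4 := E.y1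
  have q6 := E.mj
  have q7 := E.mx
  have q8 := E.dj
  have q9 := E.jt
  have q10 := E.vf
  rw [← hwn] at q2 q3 q4 q6 q7 q8 q9 q10 wW cls zL ⊢
  have hnl : ∀ l, ⌊n l * J⌋₊ = nc l := fun l => by rw [hnc]
  have hnl' : ∀ l, ⌊n' l * J⌋₊ = nc' l := fun l => by rw [hnc']
  simp only [hnl, hnl'] at q3 q4 cn ⊢
  have ncu : ∀ l, n l * J ≤ nc l + 1 := fun l => by
    rw [hnc]
    exact (Nat.lt_floor_add_one _).le
  have ncu' : ∀ l, n' l * J ≤ nc' l + 1 := fun l => by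
    rw [hnc']
    exact (Nat.lt_floor_add_one _).le
  have wJn : wn ≤ J := wW.trans WJ
  -- the codes are few bits
  have hsd : CH p (sdL F c r₀ wn K H nc nc') (fun ω => (zw ω, y ω)) ≤
      (r₀ + 1) * (2 * η + 2 * cD K) := by
    refine sd_few law wJn deg DK (N := nd n n' w) (r₀ := r₀) (v := r₀)
      (fun l l0 l1 => absurd l1 (not_lt.2 l0)) _ (fun ω ν _ _ e => ?_) hη (fun l hl => ?_)
      (fun l hl => ?_) (fun l l0 l1 => ?_) le_rfl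
    · refine ⟨(q1 ω ν (Prod.ext_iff.mp e).2).2, ?_⟩
      funext l j'
      unfold jet2
      by_cases h : r₀ ≤ l ∧ l < r₀ ∧ j' ≤ 1
      · exact absurd h.2.1 (not_lt.2 h.1)
      · rw [if_neg h, if_neg h]
    · exact q3 l hl
    · exact q4 l hl
    · have h2 : l = r₀ := le_antisymm l1 l0
      rw [CH_eq_zero h0 fun ω ν _ _ _ => by
        rw [cod_aff wJn (fun s => hA l l0 (l1.trans hr) s) le_rfl ω,
          cod_aff wJn (fun s => hA l l0 (l1.trans hr) s) le_rfl ν]]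
      exact hη
  have hZn0 : ∀ l, nd n n' w l 0 = n l := fun l => by unfold nd; rw [if_pos rfl]
  have hZn1 : ∀ l, nd n n' w l 1 = n' l - w := fun l => by
    unfold nd
    rw [if_neg one_ne_zero]
    push_cast
    ring
  -- jets from the codes
  have hjs : CH p (jet2 F c wn H 0 r₀ (nd n n' w))
      (fun ω => (rt F W ω, zxs F c 0 W zw (sdL F c r₀ wn K H nc nc') ω)) ≤ 2 * r₀ * cS K := by
    refine jet2_sd (nc := nc) (nc' := nc') law wJn deg DK le_rfl (fun l _ _ => ?_)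
      (fun l _ _ => ?_) _ fun ω ν _ _ e => ?_
    · rw [hZn0]
      exact ncu l
    · rw [hZn1]
      have := ncu' l
      linarith
    · obtain ⟨e1, e2⟩ := Prod.ext_iff.mp e
      obtain ⟨e3, e4⟩ := AvL.eqz e2
      exact ⟨(time_eq F WJ e3 e1).1, e4⟩
  have hyf : CH p y (fun ω => (rt F W ω, zxs F c 0 W zw (sdL F c r₀ wn K H nc nc') ω)) ≤
      2 * r₀ * cS K + η := by
    refine CH_via h0 _ (jet2 F c wn H 0 r₀ (nd n n' w)) hjs q2 fun ω ν _ _ e => ?_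
    obtain ⟨e1, e2⟩ := Prod.ext_iff.mp e
    obtain ⟨e3, e4⟩ := Prod.ext_iff.mp e2
    obtain ⟨e5, e6⟩ := Prod.ext_iff.mp e4
    obtain ⟨e7, e8⟩ := AvL.eqz e4
    obtain ⟨e9, -⟩ := Prod.ext_iff.mp e6
    have e10 : F.Z ω = F.Z ν := (Prod.ext_iff.mp e9).1
    refine Prod.ext e1 (Prod.ext e5 ?_)
    exact Prod.ext (time_eq F WJ e7 e3).1 e10
  -- the side information from the codes and `y`
  have hYc : ∀ {ω ν : F.Ω}, sdL F c r₀ wn K H nc nc' ω = sdL F c r₀ wn K H nc nc' ν →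
      y ω = y ν → ycV F c r₀ wn K H nc nc' y ω = ycV F c r₀ wn K H nc nc' y ν := by
    intro ω ν e1 e3
    unfold ycV
    have e4 : yv c 0 J F ω = yv c 0 J F ν := by
      obtain ⟨z1, z2⟩ := q1 ω ν e3
      unfold yv
      refine Prod.ext (Prod.ext z2 z1) (Prod.ext ?_ ?_)
      · funext i
        simp
      · funext i
        simp
    rw [e1, e3, e4]
  have hYc' : ∀ {ω ν : F.Ω}, ycV F c r₀ wn K H nc nc' y ω = ycV F c r₀ wn K H nc nc' y ν →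
      sdL F c r₀ wn K H nc nc' ω = sdL F c r₀ wn K H nc nc' ν ∧ y ω = y ν := by
    intro ω ν e
    unfold ycV at e
    obtain ⟨e1, e2⟩ := Prod.ext_iff.mp e
    obtain ⟨e3, e4⟩ := Prod.ext_iff.mp e2
    exact ⟨e4, e3⟩
  have hCHsub : ∀ {𝓦 : Type} (Z : F.Ω → 𝓦), (∀ ω ν, 0 < p ω → 0 < p ν → Z ω = Z ν →
      (zw ω = zw ν ∧ y ω = y ν)) →
      CH p (sdL F c r₀ wn K H nc nc') Z ≤ (r₀ + 1) * (2 * η + 2 * cD K) := by
    intro 𝓦 Z hZ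
    refine (CH_mono_cond h0 fun ω ν a b e => ?_).trans hsd
    obtain ⟨e2, e3⟩ := hZ ω ν a b e
    exact Prod.ext e2 e3
  have hzT1 : ∀ ω ν, 0 < p ω → 0 < p ν →
      zxs F c 0 W zw (sdL F c r₀ wn K H nc nc') ω = zxs F c 0 W zw (sdL F c r₀ wn K H nc nc') ν →
      F.T1 W ω = F.T1 W ν := fun ω ν _ _ e => (AvL.eqz e).1
  have hmA : ∀ (j : Fin (v + 1 - r₀)) (s : LnT F), (H s (mvR r₀ v j)).totalDegree ≤ 1 :=
    fun j s => hA _ (mvR_lo j) (mvR_hi j) s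
  have hkv : ((v + 1 - r₀ : ℕ) : ℝ) ≤ v + 1 := by
    have : v + 1 - r₀ ≤ v + 1 := Nat.sub_le _ _
    exact_mod_cast this
  have hzLW : Det p (slam F W) zw := fun ω ν a b e => zL ω ν a b (by
    rw [← upw_slam F wW WJ ω, ← upw_slam F wW WJ ν, e])
  refine
    { law := law
      sup := sup
      wW := wW
      WJ := WJ
      deg := deg
      DK := DK
      KX := KX
      Xtm := fun _ => le_rfl
      cls := fun ω hω => ⟨fun _ => cls ω hω (v + 1) (by omega), fun j => cls ω hω _ (by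
        have := mvR_hi j
        omega)⟩
      grd := grd_V hw0 wJn hr deg DK cls grd kn cn
      mU := mU
      zT := zxs_T p
      czy := ?_
      cyz := ?_
      ti := (adV_ti law hT (zxs_L hzLW (sdL_L wW WJ p)) (zxs_T p) K).trans hψ
      mj := ?_
      mx := ?_
      chj := ?_
      chx := ?_
      zx := ?_
      n0 := fun j => n0 _ (mvR_lo j) (mvR_hi j)
      n1 := fun j => n1 _ (mvR_lo j) (mvR_hi j)
      x0 := fun j => x0 _ (mvR_lo j) (mvR_hi j)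
      x1 := fun j => x1 _ (mvR_lo j) (mvR_hi j)
      u0 := fun j => ?_
      u1 := fun j => ?_
      m0 := fun _ => m0
      m1 := fun _ => m1
      mf := fun _ => mf
      ac := ?_
      va := ?_
      dj := fun _ => ?_
      jt := fun _ => ?_
      vf := ?_ }
  · -- czy
    refine le_trans (le_of_eq (CH_eq_zero h0 fun ω ν _ _ e => ?_)) (by rw [heV]; linarith :
      (0 : ℝ) ≤ eV v K M ρ η)
    obtain ⟨e1, e2⟩ := Prod.ext_iff.mp e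
    obtain ⟨e7, e9⟩ := hYc' e2
    obtain ⟨z1, z2⟩ := q1 ω ν e9
    refine Prod.ext (rt_of F WJ z2) (Prod.ext e1 (Prod.ext ?_ (Prod.ext ?_ e7)))
    · show (F.Z ω, F.T1 W ω) = (F.Z ν, F.T1 W ν)
      unfold Fam.T1
      rw [z1, z2]
    · funext l
      exact Fin.elim0 l
  · -- cyz
    refine (zxs_cyz (sy := fun ω => (y ω, sdL F c r₀ wn K H nc nc' ω)) law WJ
      (e := 2 * r₀ * cS K + η) ?_).trans (by rw [heV]; linarith)
    have b1 := CH_subadd h0 y (sdL F c r₀ wn K H nc nc')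
      (fun ω => (rt F W ω, zxs F c 0 W zw (sdL F c r₀ wn K H nc nc') ω))
    have b3 : CH p (sdL F c r₀ wn K H nc nc')
      (fun ω => (rt F W ω, zxs F c 0 W zw (sdL F c r₀ wn K H nc nc') ω)) = 0 :=
      CH_eq_zero h0 fun ω ν _ _ e => (AvL.eqz (Prod.ext_iff.mp e).2).2
    linarith
  · -- mj
    have b1 := MI_mono h0 zj (X := fun ω => (jet2 F c wn H r₀ (v + 1) Df ω,
      pr2 F c wn H (v + 1) Ef ω)) (X' := fun ω => (jetm F c (mvR r₀ v) wn H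
        (fun j => Df (mvR r₀ v j)) ω, fun _ : Fin 1 => pr2 F c wn H (v + 1) Ef ω))
      (fun ω => ((jetm F c (mvR r₀ v) wn H (fun j => Dn (mvR r₀ v j)) ω,
        fun _ : Fin 1 => pr2 F c wn H (v + 1) En ω), (zw ω, ycV F c r₀ wn K H nc nc' y ω)))
      (fun ω ν _ _ e => by
        obtain ⟨e1, -⟩ := Prod.ext_iff.mp e
        obtain ⟨e2, e3⟩ := Prod.ext_iff.mp e1
        exact Prod.ext (jetm_jet2.1 e2) (funext fun _ => e3))
    have b2 := MI_add h0 zj (fun ω => (jet2 F c wn H r₀ (v + 1) Df ω,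
      pr2 F c wn H (v + 1) Ef ω)) (Z := fun ω => ((jet2 F c wn H r₀ (v + 1) Dn ω,
      pr2 F c wn H (v + 1) En ω), (zw ω, y ω))) (Z' := fun ω => ((jetm F c (mvR r₀ v) wn H
        (fun j => Dn (mvR r₀ v j)) ω, fun _ : Fin 1 => pr2 F c wn H (v + 1) En ω),
          (zw ω, ycV F c r₀ wn K H nc nc' y ω)))
      (C := sdL F c r₀ wn K H nc nc') (fun ω ν _ _ e => by
        obtain ⟨e1, e2⟩ := Prod.ext_iff.mp e
        obtain ⟨e3, e4⟩ := Prod.ext_iff.mp e1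
        obtain ⟨e5, e6⟩ := Prod.ext_iff.mp e2
        obtain ⟨e7, e9⟩ := hYc' e6
        exact Prod.ext (Prod.ext (jetm_jet2.2 e3) (congrFun e4 0)) (Prod.ext e5 e9))
      (fun ω ν _ _ e => by
        obtain ⟨e1, e2⟩ := Prod.ext_iff.mp e
        obtain ⟨e3, e4⟩ := Prod.ext_iff.mp e2
        obtain ⟨e5, e6⟩ := Prod.ext_iff.mp e3
        obtain ⟨e7, e8⟩ := Prod.ext_iff.mp e4
        exact Prod.ext (Prod.ext (jetm_jet2.1 e5) (funext fun _ => e6)) (Prod.ext e7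
          (hYc e1 e8)))
    have b3 := hCHsub (fun ω => ((jet2 F c wn H r₀ (v + 1) Dn ω, pr2 F c wn H (v + 1) En ω),
      (zw ω, y ω))) (fun ω ν _ _ e => by
        obtain ⟨e3, e4⟩ := Prod.ext_iff.mp e
        obtain ⟨e7, e8⟩ := Prod.ext_iff.mp e4
        exact ⟨e7, e8⟩)
    rw [heV]
    linarith
  · -- mx
    have b1 := MI_mono h0 zx (X := jet2 F c wn H r₀ (v + 1) Df)
      (X' := jetm F c (mvR r₀ v) wn H (fun j => Df (mvR r₀ v j)))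
      (fun ω => (jetm F c (mvR r₀ v) wn H (fun j => Dx (mvR r₀ v j)) ω, (zw ω,
        ycV F c r₀ wn K H nc nc' y ω)))
      (fun ω ν _ _ e => jetm_jet2.1 (Prod.ext_iff.mp e).1)
    have b2 := MI_add h0 zx (jet2 F c wn H r₀ (v + 1) Df) (Z := fun ω =>
      (jet2 F c wn H r₀ (v + 1) Dx ω, (zw ω, y ω))) (Z' := fun ω => (jetm F c (mvR r₀ v) wn H
        (fun j => Dx (mvR r₀ v j)) ω, (zw ω, ycV F c r₀ wn K H nc nc' y ω)))
      (C := sdL F c r₀ wn K H nc nc') (fun ω ν _ _ e => by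
        obtain ⟨e3, e2⟩ := Prod.ext_iff.mp e
        obtain ⟨e5, e6⟩ := Prod.ext_iff.mp e2
        obtain ⟨e7, e9⟩ := hYc' e6
        exact Prod.ext (jetm_jet2.2 e3) (Prod.ext e5 e9))
      (fun ω ν _ _ e => by
        obtain ⟨e1, e2⟩ := Prod.ext_iff.mp e
        obtain ⟨e5, e4⟩ := Prod.ext_iff.mp e2
        obtain ⟨e7, e8⟩ := Prod.ext_iff.mp e4
        exact Prod.ext (jetm_jet2.1 e5) (Prod.ext e7 (hYc e1 e8)))
    have b3 := hCHsub (fun ω => (jet2 F c wn H r₀ (v + 1) Dx ω, (zw ω, y ω)))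
      (fun ω ν _ _ e => by
        obtain ⟨e5, e4⟩ := Prod.ext_iff.mp e
        obtain ⟨e7, e8⟩ := Prod.ext_iff.mp e4
        exact ⟨e7, e8⟩)
    rw [heV]
    linarith
  · rw [CH_eq_zero h0 chj, heV]
    linarith
  · rw [CH_eq_zero h0 chx, heV]
    linarith
  · rw [CH_eq_zero h0 zwx, heV]
    linarith
  · -- u0
    simpa using u0 _ (mvR_lo j) (mvR_hi j)
  · simpa using u1 _ (mvR_lo j) (mvR_hi j)
  · -- ac
    have h1 := ac_A (c := c) (mv := mvR r₀ v) (tg := fun _ : Fin 1 => v + 1) (qt := fun _ => q)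
      (Xt := fun _ => X) (q := q) (X := X) (mm := mm) (γ := γ)
      (gg := fun ω _ j => gnh F c (v + 1) γ (G 0) (G nn) ω (mvR r₀ v j))
      (z := zxs F c 0 W zw (sdL F c r₀ wn K H nc nc')) (N := fun j => Df (mvR r₀ v j))
      law wW WJ deg DK hmA hzT1 (fun j => f0 _ (mvR_lo j) (mvR_hi j))
      (fun j => f1 _ (mvR_lo j) (mvR_hi j))
    have h2 : ((v + 1 - r₀ : ℕ) : ℝ) * cL K ≤ (v + 1) * cL K :=
      mul_le_mul_of_nonneg_right hkv hcL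
    rw [heV]
    linarith
  · -- va
    have h1 := va_A (c := c) (mv := mvR r₀ v) (tg := fun _ : Fin 1 => v + 1) (qt := fun _ => q)
      (Xt := fun _ => X) (q := q) (X := X) (mm := mm) (γ := γ)
      (gg := fun ω _ j => gnh F c (v + 1) γ (G 0) (G nn) ω (mvR r₀ v j))
      (z := zxs F c 0 W zw (sdL F c r₀ wn K H nc nc')) (N := fun j => Nv (mvR r₀ v j))
      law wW WJ deg DK hmA hzT1 (fun j => v0 _ (mvR_lo j) (mvR_hi j))
      (fun j => v1 _ (mvR_lo j) (mvR_hi j))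
    have h2 : ((v + 1 - r₀ : ℕ) : ℝ) * cL K ≤ (v + 1) * cL K :=
      mul_le_mul_of_nonneg_right hkv hcL
    rw [heV]
    linarith
  · -- dj
    rw [hg] at q8
    have b1 : CH p (cod F wn (fun s => H s (v + 1)) (c (v + 1)) (γ (v + 1) + q + X) 1 K)
        (fun ω => (jetm F c (mvR r₀ v) wn H (fun j => Df (mvR r₀ v j)) ω, (zw ω,
          ycV F c r₀ wn K H nc nc' y ω))) ≤ η := by
      refine (CH_mono_cond h0 fun ω ν _ _ e => ?_).trans q8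
      obtain ⟨e1, e2⟩ := Prod.ext_iff.mp e
      obtain ⟨e3, e4⟩ := Prod.ext_iff.mp e2
      obtain ⟨e7, e9⟩ := hYc' e4
      refine Prod.ext ?_ (Prod.ext e3 e9)
      exact jet2_eq le_rfl (fun l l0 l1 j' hj' =>
        (hDd l l0 (Nat.lt_succ_iff.1 l1) j' hj').symm) (jetm_jet2.2 e1)
    rw [heV]
    linarith
  · -- jt
    have b0 := cod_prec law (w := wn) (K := K) (N := γ (v + 1) + q) (s := 2 ^ (Nt * J))
      (Real.rpow_pos_of_pos two_pos _) hρ hNt (Hl := fun s => H s (v + 1)) (κ := c (v + 1))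
      (a₀ := 0) (fun ω => (jetm F c (mvR r₀ v) wn H
        (fun j j' => nt (mvR r₀ v j) - (j' : ℝ) * w) ω,
        (zx ω, ycV F c r₀ wn K H nc nc' y ω)))
    have b1 : CH p (Pool.AVG71.cod F wn 0 K (2 ^ (Nt * J)) (c (v + 1)) (fun s => H s (v + 1))
        (fun P => P)) (fun ω => (jetm F c (mvR r₀ v) wn H
        (fun j j' => nt (mvR r₀ v j) - (j' : ℝ) * w) ω,
        (zx ω, ycV F c r₀ wn K H nc nc' y ω))) ≤ η := by
      refine (CH_mono_cond h0 fun ω ν _ _ e => ?_).trans q9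
      obtain ⟨e1, e2⟩ := Prod.ext_iff.mp e
      obtain ⟨e3, e4⟩ := Prod.ext_iff.mp e2
      obtain ⟨e7, e9⟩ := hYc' e4
      exact Prod.ext (jetM_aff hA e1) (Prod.ext e3 e9)
    rw [heV]
    linarith
  · -- vf
    have b1 : CH p (jto F c r₀ v wn H 0 nb) (fun ω => (jto F c r₀ v wn H 0
        (fun l => Nv l 0) ω, (jto F c r₀ v wn H 1 (fun l => Nv l 1) ω,
          (zx ω, (zw ω, y ω))))) ≤ (r₀ + 1) * (2 * η + 2 * cD K) +
        CH p (Vm F c (mvR r₀ v) wn H (fun j => nb (mvR r₀ v j) * J))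
          (fun ω => (jetm F c (mvR r₀ v) wn H (fun j => Nv (mvR r₀ v j)) ω,
            (zx ω, ycV F c r₀ wn K H nc nc' y ω))) := by
      refine CH_via h0 (jto F c r₀ v wn H 0 nb) (sdL F c r₀ wn K H nc nc')
        (W' := fun ω => (jetm F c (mvR r₀ v) wn H (fun j => Nv (mvR r₀ v j)) ω, (zx ω,
          ycV F c r₀ wn K H nc nc' y ω)))
        (hCHsub _ fun ω ν _ _ e => ?_) le_rfl (fun ω ν _ _ e => ?_)
      · simp only [Prod.mk.injEq] at e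
        obtain ⟨-, -, -, e1, e2⟩ := e
        exact ⟨e1, e2⟩
      · simp only [Prod.mk.injEq] at e
        obtain ⟨e0, e1, e2, e3, e4, e5⟩ := e
        exact Prod.ext (jetm_jto.2 ⟨e1, e2⟩) (Prod.ext e3 (hYc e0 e5))
    have b3 : ((v + 1 - r₀ : ℕ) : ℝ) * X ≤ (∑ j, (nb (mvR r₀ v j) - Nv (mvR r₀ v j) 0)) * J := by
      have h1 : ((v + 1 - r₀ : ℕ) : ℝ) * X = ∑ _j : Fin (v + 1 - r₀), (X : ℝ) := by
        rw [Finset.sum_const, Finset.card_univ, Fintype.card_fin, nsmul_eq_mul]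
      rw [h1, Finset.sum_mul]
      refine Finset.sum_le_sum fun j _ => ?_
      have := b2 _ (mvR_lo j) (mvR_hi j)
      linarith
    have hl2 : 0 ≤ Real.log 2 := Real.log_nonneg one_le_two
    have b4 := mul_le_mul_of_nonneg_right b3 hl2
    have e1 : (∑ j, (nb (mvR r₀ v j) - Nv (mvR r₀ v j) 0)) * Real.log 2 * J =
      (∑ j, (nb (mvR r₀ v j) - Nv (mvR r₀ v j) 0)) * J * Real.log 2 := by ring
    rw [e1] at q10
    rw [heV]
    linarith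

end

end Pool.C1V35
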