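import Pool.Agent.H35.C1V.Cvs
import Pool.Agent.H57.AVG.C1g

/-!
# The inputs of a class, on one event, all places of the chain moved

`CvH`: the statements `CvC` at one event, with the finest records. `CvC.bas`: they hold at the events
of the class. `CvH.ev`: the values `CvE` for closed charts, `CvH.rowv`: the row.
-/

set_option autoImplicit false

namespace Pool.C1V35

open Finset Real MvPolynomial
open Pool.Agent.H49.Ent Pool.Agent.H32.Dense Pool.STK Pool.KA Pool.KSAT Pool.K2S Pool.PB Pool.S6C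
open Pool.GEN Pool.CHT Pool.CHX Pool.ISO Pool.RCD Pool.LA91 Pool.AVG71 Pool.AVG5 Pool.D2F2
open Pool.AVG57
open Pool.AVG96 (jetQ prQ MIw)
open Pool.GRD (LbP)
open Pool.PB.Trl (rt rt_mem t_rt)
open Pool.D2R (hgt gnh GrdE chs)
open Pool.KVA (MI)
open Pool.KAF (rs Pr)
open Pool.BFL (Pb)

variable {m : ℕ} {γ : ∀ J : ℕ, Fam m J → Type}

/-- **The statements on one event.** -/
structure CvH (y : ∀ (J : ℕ) (F : Fam m J), F.Ω → γ J F) (c : ℕ → Fin m) (r₀ v K K₀ : ℕ)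
    (w j x : ℝ) (p n n' nt : ℕ → ℝ) (Nd Nt : ℝ) (nb : ℕ → ℝ) (Df Dn Dx Dd : ℕ → ℕ → ℝ)
    (Ef En : ℕ → ℝ) (Nv : ℕ → ℕ → ℝ) (P₁ P₂ E h η η₁ π₀ : ℝ) (J : ℕ) (F : Fam m J)
    (B : F.Ω → Prop) : Prop where
  yf : ∀ u, (jetQ m c 0 r₀ w p (nd n n' w)).P K₀ 0 J F B u → ∃ (V₁ : Type) (z₁ : F.Ω → V₁),
    Cl2 (ptr F J) (vg w J F) B z₁ ∧
      CH (Pool.Agent.H49.Ent.cond F.p B True) (y J F) (fun ω => (u ω, (z₁ ω, F.W ω))) ≤ η * J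
  y0 : ∀ l < r₀, CdE y c l K 0 K₀ w w (p l) (n l) η E (Qt.fn fun _ _ _ => ()) J F B
  y1 : ∀ l < r₀, CdE y c l K 1 K₀ w w (p l) (n' l) η E (Qt.fn fun _ _ _ => ()) J F B
  mj : ∀ (V₁ V₂ : Type) (z : F.Ω → V₁) (zv : F.Ω → V₂), Mx (fun J F => ptr F J) (vg w) 0 F B z →
    Mx (fun J F => ptr F J) (vg j) 0 F B zv → ∀ a b,
    ((jetQ m c r₀ (v + 1) w p Df).prod (prQ m c (v + 1) w (p (v + 1)) Ef)).P K₀ 0 J F B a →
    ((jetQ m c r₀ (v + 1) w p Dn).prod (prQ m c (v + 1) w (p (v + 1)) En)).P K₀ 0 J F B b →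
    MI (Pool.Agent.H49.Ent.cond F.p B True) zv a (fun ω => (b ω, (z ω, y J F ω))) ≤ (η + η₁) * J
  mx : ∀ (V₁ V₂ : Type) (z : F.Ω → V₁) (zv : F.Ω → V₂), Mx (fun J F => ptr F J) (vg w) 0 F B z →
    Mx (fun J F => ptr F J) (vg x) 0 F B zv → ∀ a b,
    (jetQ m c r₀ (v + 1) w p Df).P K₀ 0 J F B a → (jetQ m c r₀ (v + 1) w p Dx).P K₀ 0 J F B b →
    MI (Pool.Agent.H49.Ent.cond F.p B True) zv a (fun ω => (b ω, (z ω, y J F ω))) ≤ (η + η₁) * J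
  dj : CdE y c (v + 1) K 1 K₀ w w (p (v + 1)) Nd η E (jetQ m c r₀ (v + 1) w p Dd) J F B
  jt : CdE y c (v + 1) K 0 K₀ w x (p (v + 1)) Nt η E
    (qJets m c r₀ (v + 1) (K + 2) (fun _ _ => w) (fun l _ => p l)
      (fun l j' => nt l - (j' : ℝ) * w)) J F B
  vf : ∀ (V₁ V₂ : Type) (z : F.Ω → V₁) (zx : F.Ω → V₂), Mx (fun J F => ptr F J) (vg w) 0 F B z →
    Mx (fun J F => ptr F J) (vg x) 0 F B zx → ∀ a b d : F.Ω → Fin (v + 1 - r₀) → ℤ,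
      (∀ j, (qJa m ((range (mvR r₀ v j)).image c) (c (mvR r₀ v j)) 0 w (p (mvR r₀ v j))
        (Nv (mvR r₀ v j) 0)).P K₀ 0 J F B (fun ω => a ω j)) →
      (∀ j, (qJa m ((range (mvR r₀ v j)).image c) (c (mvR r₀ v j)) 0 w (p (mvR r₀ v j))
        (nb (mvR r₀ v j))).P K₀ 0 J F B (fun ω => b ω j)) →
      (∀ j, (qJa m ((range (mvR r₀ v j)).image c) (c (mvR r₀ v j)) 1 w (p (mvR r₀ v j))
        (Nv (mvR r₀ v j) 1)).P K₀ 0 J F B (fun ω => d ω j)) →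
      ((∑ j, (nb (mvR r₀ v j) - Nv (mvR r₀ v j) 0)) * Real.log 2 - η) * J ≤
        CH (Pool.Agent.H49.Ent.cond F.p B True) b
          (fun ω => (a ω, (d ω, (zx ω, (z ω, y J F ω)))))
  row : ∀ (V : Type) (z : F.Ω → V), Mx (fun J F => ptr F J) (vg w) 0 F B z → ∀ u u₁ u₂,
      (qJets m c r₀ (v + 1) 0 (fun _ _ => w) (fun l _ => p l) (fun l _ => nb l)).P K₀ 0 J F B u →
      (qJet m ((range (v + 1)).image c) (c (v + 1)) 0 w (p (v + 1)) P₁).P K₀ 0 J F B u₁ →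
      (qJet m ((range (v + 1)).image c) (c (v + 1)) 0 w (p (v + 1)) P₂).P K₀ 0 J F B u₂ →
      ∀ B' : F.Ω → Prop, Sub B' B → π₀ * Pe F.p B ≤ Pe F.p B' →
      CH (Pool.Agent.H49.Ent.cond F.p B' True) u₂
        (fun ω => (u₁ ω, (u ω, (z ω, y J F ω)))) ≤
        ((1 - h) * (P₂ - P₁) * Real.log 2 + η) * J

section

variable {S : PCl m} {y : ∀ (J : ℕ) (F : Fam m J), F.Ω → γ J F} {c : ℕ → Fin m} {r₀ v K : ℕ}
  {w j x : ℝ} {p n n' nt : ℕ → ℝ} {Nd Nt : ℝ} {nb : ℕ → ℝ} {Df Dn Dx Dd : ℕ → ℕ → ℝ}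
  {Ef En : ℕ → ℝ} {Nv : ℕ → ℕ → ℝ} {P₁ P₂ h η : ℝ}

/-- **The statements on the events of the class.** -/
theorem CvC.bas (C : CvC S y c r₀ v K w j x p n n' nt Nd Nt nb Df Dn Dx Dd Ef En Nv P₁ P₂ h η)
    (K₀ : ℕ) (E : ℝ) {η₁ π₀ : ℝ} (hη₁ : 0 < η₁) (hπ₀ : 0 < π₀) :
    Bas S (fun J F B => CvH y c r₀ v K K₀ w j x p n n' nt Nd Nt nb Df Dn Dx Dd Ef En Nv P₁ P₂ E h
      η η₁ π₀ J F B) := by
  obtain ⟨e₁, he₁, a1⟩ := C.yf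
  obtain ⟨k₂, hk₂, e₂, he₂, a2⟩ := C.mj η₁ hη₁
  obtain ⟨k₃, hk₃, e₃, he₃, a3⟩ := C.mx η₁ hη₁
  obtain ⟨k₄, hk₄, e₄, he₄, a4⟩ := C.vf
  obtain ⟨k₅, hk₅, e₅, he₅, a5⟩ := C.row π₀ hπ₀
  have b1 := Bas.all r₀ fun l hl => (C.y0 l hl).ev K₀ E
  have b2 := Bas.all r₀ fun l hl => (C.y1 l hl).ev K₀ E
  have b4 := C.dj.ev K₀ E
  have b5 := C.jt.ev K₀ E
  refine Bas.mono 0 ((((a1 K₀).and (b1.and b2)).and ((a2 K₀).and (a3 K₀))).and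
    ((b4.and b5).and ((a4 K₀).and (a5 K₀)))) ?_
  rintro J - F B ⟨⟨⟨q1, q2, q3⟩, q4, q5⟩, ⟨q7, q8⟩, q9, q10⟩
  exact ⟨fun u hu => q1 u (Qt.mono _ le_rfl he₁.le hu), q2, q3,
    fun V₁ V₂ z zv hz hzv a b ha hb => q4 V₁ V₂ z zv (Mx.up hz hk₂.le) (Mx.up hzv hk₂.le) a b
      (Qt.mono _ le_rfl he₂.le ha) (Qt.mono _ le_rfl he₂.le hb),
    fun V₁ V₂ z zv hz hzv a b ha hb => q5 V₁ V₂ z zv (Mx.up hz hk₃.le) (Mx.up hzv hk₃.le) a b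
      (Qt.mono _ le_rfl he₃.le ha) (Qt.mono _ le_rfl he₃.le hb), q7, q8,
    fun V₁ V₂ z zx hz hzx a b d ha hb hd => q9 V₁ V₂ z zx (Mx.up hz hk₄.le)
      (Mx.up hzx hk₄.le) a b d (fun j => Qt.mono _ le_rfl he₄.le (ha j))
      (fun j => Qt.mono _ le_rfl he₄.le (hb j)) (fun j => Qt.mono _ le_rfl he₄.le (hd j)),
    fun V z hz u u₁ u₂ hu hu₁ hu₂ B' hB' hPB => q10 V z (Mx.up hz hk₅.le) u u₁ u₂
      (Qt.mono _ le_rfl he₅.le hu) (Qt.mono _ le_rfl he₅.le hu₁) (Qt.mono _ le_rfl he₅.le hu₂)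
      B' hB' hPB⟩

end

/-! ### The values -/

/-- **A bound of all digits.** -/
structure BdV (v M : ℕ) (w : ℝ) (n n' nt nb : ℕ → ℝ) (Df Dn Dx Dd : ℕ → ℕ → ℝ)
    (Ef En : ℕ → ℝ) (Nv : ℕ → ℕ → ℝ) (P₁ P₂ R : ℝ) : Prop where
  nd : ∀ l ≤ v + 1, ∀ j' ≤ M, |nd n n' w l j'| ≤ R
  Df : ∀ l ≤ v + 1, ∀ j' ≤ M, |Df l j'| ≤ R
  Dn : ∀ l ≤ v + 1, ∀ j' ≤ M, |Dn l j'| ≤ R
  Dx : ∀ l ≤ v + 1, ∀ j' ≤ M, |Dx l j'| ≤ R
  Dd : ∀ l ≤ v + 1, ∀ j' ≤ M, |Dd l j'| ≤ R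
  Ef : ∀ j' ≤ M, |Ef j'| ≤ R
  En : ∀ j' ≤ M, |En j'| ≤ R
  Nv : ∀ l ≤ v + 1, ∀ j' ≤ M, |Nv l j'| ≤ R
  nt : ∀ l ≤ v + 1, ∀ j' ≤ M, |nt l - (j' : ℝ) * w| ≤ R
  nb : ∀ l ≤ v + 1, |nb l| ≤ R
  P1 : |P₁| ≤ R
  P2 : |P₂| ≤ R

/-- **There is a bound.** -/
theorem exists_bdV (v M : ℕ) (w : ℝ) (n n' nt nb : ℕ → ℝ) (Df Dn Dx Dd : ℕ → ℕ → ℝ)
    (Ef En : ℕ → ℝ) (Nv : ℕ → ℕ → ℝ) (P₁ P₂ : ℝ) :
    ∃ R : ℝ, BdV v M w n n' nt nb Df Dn Dx Dd Ef En Nv P₁ P₂ R := by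
  obtain ⟨a, ha⟩ : ∃ a : ℝ, a = bdN (AVG57.nd n n' w) (v + 2) M + bdN Df (v + 2) M +
    bdN Dn (v + 2) M + bdN Dx (v + 2) M + bdN Dd (v + 2) M := ⟨_, rfl⟩
  obtain ⟨b, hb⟩ : ∃ b : ℝ, b = bdN (fun _ i => Ef i) 1 M + bdN (fun _ i => En i) 1 M +
    bdN Nv (v + 2) M + bdN (fun l i => nt l - (i : ℝ) * w) (v + 2) M := ⟨_, rfl⟩
  obtain ⟨d, hd⟩ : ∃ d : ℝ, d = bdN (fun l _ => nb l) (v + 2) 0 + |P₁| + |P₂| := ⟨_, rfl⟩
  have a1 := bdN_nonneg (AVG57.nd n n' w) (v + 2) M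
  have a2 := bdN_nonneg Df (v + 2) M
  have a3 := bdN_nonneg Dn (v + 2) M
  have a4 := bdN_nonneg Dx (v + 2) M
  have a5 := bdN_nonneg Dd (v + 2) M
  have a6 := bdN_nonneg (fun _ i => Ef i) 1 M
  have a7 := bdN_nonneg (fun _ i => En i) 1 M
  have a8 := bdN_nonneg Nv (v + 2) M
  have a9 := bdN_nonneg (fun l i => nt l - (i : ℝ) * w) (v + 2) M
  have a10 := bdN_nonneg (fun l _ => nb l) (v + 2) 0
  have a11 := abs_nonneg P₁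
  have a12 := abs_nonneg P₂
  refine ⟨a + b + d, ⟨fun l hl i hi => ?_, fun l hl i hi => ?_, fun l hl i hi => ?_,
    fun l hl i hi => ?_, fun l hl i hi => ?_, fun i hi => ?_, fun i hi => ?_,
    fun l hl i hi => ?_, fun l hl i hi => ?_, fun l hl => ?_, ?_, ?_⟩⟩
  · have := le_bdN (AVG57.nd n n' w) (a := v + 2) (Nat.lt_succ_of_le hl) hi
    linarith
  · have := le_bdN Df (a := v + 2) (Nat.lt_succ_of_le hl) hi
    linarith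
  · have := le_bdN Dn (a := v + 2) (Nat.lt_succ_of_le hl) hi
    linarith
  · have := le_bdN Dx (a := v + 2) (Nat.lt_succ_of_le hl) hi
    linarith
  · have := le_bdN Dd (a := v + 2) (Nat.lt_succ_of_le hl) hi
    linarith
  · have := le_bdN (fun _ i => Ef i) (a := 1) (l := 0) one_pos hi
    linarith
  · have := le_bdN (fun _ i => En i) (a := 1) (l := 0) one_pos hi
    linarith
  · have := le_bdN Nv (a := v + 2) (Nat.lt_succ_of_le hl) hi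
    linarith
  · have := le_bdN (fun l i => nt l - (i : ℝ) * w) (a := v + 2) (Nat.lt_succ_of_le hl) hi
    linarith
  · have := le_bdN (fun l _ => nb l) (a := v + 2) (i := 0) (Nat.lt_succ_of_le hl) (le_refl 0)
    linarith
  · linarith
  · linarith

/-- The label of one place, of degree at most one. -/
theorem lb_aff {J : ℕ} {F : Fam m J} {c : ℕ → Fin m} {v K : ℕ} {w : ℝ} {p s : ℕ → ℝ} {E : ℝ}
    {γl : ℕ → ℕ} {B : F.Ω → Prop} {G₀ : PtT F → ℕ → MvPolynomial (Option (Fin m)) ℝ}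
    {H : LnT F → ℕ → MvPolynomial (Option (Fin m)) ℝ} (L : LbsE F c v K w p s E γl B G₀ H)
    {l : ℕ} (hl : l ≤ v + 1) (hA : ∀ s, (H s l).totalDegree ≤ 1) :
    LbP F ((range l).image c) (c l) 1 J ⌊w * J⌋₊ ⌊(p l - 0) * J⌋₊ B (fun a => G₀ a l)
      (fun s => H s l) (nfp 1 ((range l).image c)) ∧
      ∀ s, nfp 1 ((range l).image c) (H s l) = H s l := by
  classical
  have hn : ∀ s, nfp 1 ((range l).image c) (H s l) = H s l := fun s => by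
    unfold Pool.LA91.nfp
    refine if_pos ⟨hA s, fun b b' h1 h2 => L.dep s l b b' h1 fun j hj => ?_⟩
    exact h2 (c j) (Finset.mem_image.2 ⟨j, Finset.mem_range.2 hj, rfl⟩)
  obtain ⟨h1, -⟩ := L.lb hl le_rfl
  refine ⟨⟨fun v => ?_, fun v b b' h1 h2 => ?_, fun ω hω => L.cls ω hω l (by omega),
    fun ω hω => ?_⟩, hn⟩
  · unfold Pool.LA91.nfp
    split_ifs with h1
    · exact h1.1
    · rw [totalDegree_zero]
      exact Nat.zero_le _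
  · unfold Pool.LA91.nfp
    split_ifs with h3
    · exact h3.2 b b' h1 h2
    · rw [map_zero, map_zero]
  · rw [hn]
    have h1 := L.pos ω hω l hl
    unfold Pool.D2R.hgt at h1
    rw [L.cls ω hω l (by omega)] at h1
    refine h1.trans (one_div_le_one_div_of_le (by positivity)
      (pow_le_pow_right₀ (by norm_num) ((Nat.floor_le_floor
        (mul_le_mul_of_nonneg_right (by linarith) (Nat.cast_nonneg J))).trans (L.lo l hl))))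

section

variable {y : ∀ (J : ℕ) (F : Fam m J), F.Ω → γ J F} {c : ℕ → Fin m} {r₀ v K : ℕ}
  {w j x : ℝ} {p s n n' nt : ℕ → ℝ} {Nd Nt : ℝ} {nb : ℕ → ℝ} {Df Dn Dx Dd : ℕ → ℕ → ℝ}
  {Ef En : ℕ → ℝ} {Nv : ℕ → ℕ → ℝ} {P₁ P₂ E h η η₁ π₀ R : ℝ} {J : ℕ} {F : Fam m J}
  {B : F.Ω → Prop} {γl : ℕ → ℕ} {G₀ : PtT F → ℕ → MvPolynomial (Option (Fin m)) ℝ}
  {H : LnT F → ℕ → MvPolynomial (Option (Fin m)) ℝ}

/-- The digits of one jet, charts of degree at most one. -/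
theorem jet_a (L : LbsE F c v K w p s E γl B G₀ H) (hw0 : 0 ≤ w) (hw1 : w ≤ 1) (hJ : 1 ≤ J)
    {l : ℕ} (hl : l ≤ v + 1) (hA : ∀ s, (H s l).totalDegree ≤ 1) {a M : ℕ} (ha : a ≤ M)
    {N R : ℝ} (hN : |N| ≤ R) {u : F.Ω → ℤ} (hu : ∀ ω, B ω → u ω = ⌊(2 : ℝ) ^ (N * J) *
      ojet F (c l) a (H (slam F ⌊w * J⌋₊ ω) l) ω⌋) :
    (qJa m ((range l).image c) (c l) a w (p l) N).P (kq R E M K) 0 J F B u := by
  obtain ⟨h1, h2⟩ := lb_aff L hl hA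
  refine ⟨(L.jet hw0 hw1 hJ hl ha hN le_rfl hu).1, _, _, _, _, h1, fun ω hω => ?_⟩
  rw [h2]
  exact hu ω hω

/-- **The values for closed charts.** -/
theorem CvH.ev (C : CvH y c r₀ v K (kq R E (K + 2) K) w j x p n n' nt Nd Nt nb Df Dn Dx Dd Ef En
      Nv P₁ P₂ E h η η₁ π₀ J F B) (L : LbsE F c v K w p s E γl B G₀ H)
    (hA : ∀ l, r₀ ≤ l → l ≤ v → ∀ s, (H s l).totalDegree ≤ 1)
    (D : BdV v (K + 2) w n n' nt nb Df Dn Dx Dd Ef En Nv P₁ P₂ R) (hr : r₀ ≤ v)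
    (hw0 : 0 ≤ w) (hw1 : w ≤ 1) (hJ : 1 ≤ J) (hp : 0 < Pe F.p B) (hη₁ : 0 ≤ η₁)
    (hn : ∀ l < r₀, 0 ≤ n l) (hn' : ∀ l < r₀, 0 ≤ n' l)
    (hy : ∃ φ : γ J F → F.ζ × ℕ, ∀ ω, φ (y J F ω) = (F.Z ω, F.T ω)) {g : ℕ}
    (hg : (g : ℝ) ≤ Nd * J) {Vw Vj Vx : Type} {zw : F.Ω → Vw} {zj : F.Ω → Vj} {zx : F.Ω → Vx}
    (hw' : Cl2 (ptr F J) (vg w J F) B zw)
    (hw : ∀ (V' : Type) (z' : F.Ω → V'), Cl2 (ptr F J) (vg w J F) B z' →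
      ∀ ω ν, zw ω = zw ν → z' ω = z' ν)
    (hj' : Cl2 (ptr F J) (vg j J F) B zj)
    (hj : ∀ (V' : Type) (z' : F.Ω → V'), Cl2 (ptr F J) (vg j J F) B z' →
      ∀ ω ν, zj ω = zj ν → z' ω = z' ν)
    (hx' : Cl2 (ptr F J) (vg x J F) B zx)
    (hx : ∀ (V' : Type) (z' : F.Ω → V'), Cl2 (ptr F J) (vg x J F) B z' →
      ∀ ω ν, zx ω = zx ν → z' ω = z' ν) :
    CvE F c r₀ v (K + 1) (K + 2) w g H zw zj zx (y J F) (Pool.Agent.H49.Ent.cond F.p B True) n n'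
      nt Nt nb Df Dn Dx Dd Ef En Nv ((η + η₁) * J) := by
  have hcl := isLaw_cond F.isLaw hp
  have h0 := hcl.nonneg
  have hJ0 : (0 : ℝ) ≤ J := Nat.cast_nonneg J
  have hη : η * J ≤ (η + η₁) * J := mul_le_mul_of_nonneg_right (by linarith) hJ0
  have m1 : 1 ≤ K + 2 := by omega
  have jq : ∀ {a b : ℕ} {N : ℕ → ℕ → ℝ}, b ≤ v + 2 → (∀ l ≤ v + 1, ∀ j' ≤ K + 2, |N l j'| ≤ R) →
      (jetQ m c a b w p N).P (kq R E (K + 2) K) 0 J F B (jet2 F c ⌊w * J⌋₊ H a b N) :=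
    fun hb hN => L.jets1 hw0 hw1 hJ hb m1 (fun l _ h2 j' h3 => hN l (by omega) j' (by omega)) le_rfl
  have pq : ∀ {l : ℕ} {N : ℕ → ℝ}, l ≤ v + 1 → (∀ j' ≤ K + 2, |N j'| ≤ R) →
      (prQ m c l w (p l) N).P (kq R E (K + 2) K) 0 J F B (pr2 F c ⌊w * J⌋₊ H l N) :=
    fun hb hN => L.pr hw0 hw1 hJ hb m1 (fun j' h3 => hN j' (by omega)) le_rfl
  have mxw := mx_fine (f := fun J F => ptr F J) hw' hw
  have mxj := mx_fine (f := fun J F => ptr F J) hj' hj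
  have mxx := mx_fine (f := fun J F => ptr F J) hx' hx
  have cN : ∀ {N : ℕ → ℝ} {l : ℕ}, 0 ≤ N l → (0 : ℝ) < 2 ^ ⌊N l * J⌋₊ ∧
      (2 : ℝ) ^ ⌊N l * J⌋₊ ≤ 2 ^ (N l * J) := by
    intro N l hN
    refine ⟨by positivity, ?_⟩
    rw [← Real.rpow_natCast]
    exact Real.rpow_le_rpow_of_exponent_le one_le_two (Nat.floor_le (by positivity))
  refine ⟨?_, ?_, fun l hl => ?_, fun l hl => ?_, ?_, ?_, ?_, ?_, ?_⟩
  · intro ω ν e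
    obtain ⟨φ, hφ⟩ := hy
    have h1 : (F.Z ω, F.T ω) = (F.Z ν, F.T ν) := by rw [← hφ ω, ← hφ ν, e]
    exact ⟨(Prod.ext_iff.mp h1).1, (Prod.ext_iff.mp h1).2⟩
  · obtain ⟨V₁, z₁, g1, g2⟩ := C.yf _ (jq (a := 0) (b := r₀) (by omega) D.nd)
    refine ((CH_mono_cond h0 fun ω ν _ _ e => ?_).trans g2).trans hη
    simp only [Prod.mk.injEq] at e ⊢
    exact ⟨e.1, hw _ _ g1 ω ν e.2.1, e.2.2⟩
  · obtain ⟨s1, s2⟩ := cN (N := n) (hn l hl)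
    have h1 := (C.y0 l hl).val L (by omega) (u₀ := fun _ => ()) (fun _ _ => rfl) hp hw s1 s2
    rw [cod_eq] at h1
    refine ((CH_mono_cond h0 fun ω ν _ _ e => ?_).trans h1).trans hη
    exact Prod.ext rfl e
  · obtain ⟨s1, s2⟩ := cN (N := n') (hn' l hl)
    have h1 := (C.y1 l hl).val L (by omega) (u₀ := fun _ => ()) (fun _ _ => rfl) hp hw s1 s2
    rw [cod_eq] at h1
    refine ((CH_mono_cond h0 fun ω ν _ _ e => ?_).trans h1).trans hη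
    exact Prod.ext rfl e
  · exact C.mj _ _ zw zj mxw mxj _ _ ⟨jq (a := r₀) (b := v + 1) (by omega) D.Df,
      pq le_rfl D.Ef⟩ ⟨jq (a := r₀) (b := v + 1) (by omega) D.Dn, pq le_rfl D.En⟩
  · exact C.mx _ _ zw zx mxw mxx _ _ (jq (a := r₀) (b := v + 1) (by omega) D.Df)
      (jq (a := r₀) (b := v + 1) (by omega) D.Dx)
  · have s1 : (0 : ℝ) < 2 ^ g := by positivity
    have s2 : (2 : ℝ) ^ g ≤ 2 ^ (Nd * J) := by
      rw [← Real.rpow_natCast]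
      exact Real.rpow_le_rpow_of_exponent_le one_le_two hg
    have h1 := C.dj.val L le_rfl (jq (a := r₀) (b := v + 1) (by omega) D.Dd) hp hw s1 s2
    rw [cod_eq] at h1
    exact h1.trans hη
  · have h1 := C.jt.val L le_rfl (L.jets (r₀ := r₀) (r := v + 1) (a := K + 2) (M := K + 2)
      (N := fun l j' => nt l - (j' : ℝ) * w) hw0 hw1 hJ (by omega) le_rfl
      (fun l _ h2 j' h3 => D.nt l (by omega) j' h3) le_rfl) hp hx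
      (Real.rpow_pos_of_pos two_pos (Nt * J)) le_rfl
    exact h1.trans hη
  · have hv : ∀ j, mvR r₀ v j ≤ v + 1 := fun j => (mvR_hi j).trans (Nat.le_succ v)
    have hAj : ∀ j s, (H s (mvR r₀ v j)).totalDegree ≤ 1 := fun j s =>
      hA _ (mvR_lo j) (mvR_hi j) s
    have h1 := C.vf _ _ zw zx mxw mxx (jto F c r₀ v ⌊w * J⌋₊ H 0 (fun l => Nv l 0))
      (jto F c r₀ v ⌊w * J⌋₊ H 0 nb) (jto F c r₀ v ⌊w * J⌋₊ H 1 (fun l => Nv l 1))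
      (fun j => jet_a L hw0 hw1 hJ (hv j) (hAj j) (Nat.zero_le (K + 2))
        (D.Nv _ (hv j) 0 (by omega)) fun _ _ => rfl)
      (fun j => jet_a L hw0 hw1 hJ (hv j) (hAj j) (Nat.zero_le (K + 2)) (D.nb _ (hv j))
        fun _ _ => rfl)
      (fun j => jet_a L hw0 hw1 hJ (hv j) (hAj j) m1 (D.Nv _ (hv j) 1 m1) fun _ _ => rfl)
    have h2 : (∑ j, (nb (mvR r₀ v j) - Nv (mvR r₀ v j) 0)) * Real.log 2 * J - (η + η₁) * J ≤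
      ((∑ j, (nb (mvR r₀ v j) - Nv (mvR r₀ v j) 0)) * Real.log 2 - η) * J := by
      have : 0 ≤ η₁ * J := by positivity
      linarith
    exact h2.trans h1

/-- **The row.** -/
theorem CvH.rowv (C : CvH y c r₀ v K (kq R E (K + 2) K) w j x p n n' nt Nd Nt nb Df Dn Dx Dd Ef
      En Nv P₁ P₂ E h η η₁ π₀ J F B) (L : LbsE F c v K w p s E γl B G₀ H)
    (D : BdV v (K + 2) w n n' nt nb Df Dn Dx Dd Ef En Nv P₁ P₂ R)
    (hw0 : 0 ≤ w) (hw1 : w ≤ 1) (hJ : 1 ≤ J) {Vw : Type} {zw : F.Ω → Vw}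
    (hw' : Cl2 (ptr F J) (vg w J F) B zw)
    (hw : ∀ (V' : Type) (z' : F.Ω → V'), Cl2 (ptr F J) (vg w J F) B z' →
      ∀ ω ν, zw ω = zw ν → z' ω = z' ν) {B' : F.Ω → Prop}
    (hB' : Sub B' B) (hP : π₀ * Pe F.p B ≤ Pe F.p B') :
    CH (Pool.Agent.H49.Ent.cond F.p B' True)
      (fun ω => ⌊(2 : ℝ) ^ (P₂ * J) * ojet F (c (v + 1)) 0
        (H (slam F ⌊w * J⌋₊ ω) (v + 1)) ω⌋)
      (fun ω => (⌊(2 : ℝ) ^ (P₁ * J) * ojet F (c (v + 1)) 0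
        (H (slam F ⌊w * J⌋₊ ω) (v + 1)) ω⌋, (jetM F c ⌊w * J⌋₊ H r₀ (v + 1) 0
          (fun l _ => nb l) ω, (zw ω, y J F ω)))) ≤
      ((1 - h) * (P₂ - P₁) * Real.log 2 + η) * J := by
  exact C.row _ zw (mx_fine (f := fun J F => ptr F J) hw' hw) _ _ _
    (L.jets hw0 hw1 hJ (by omega) (Nat.zero_le (K + 2)) (fun l _ h2 j' _ => D.nb l (by omega))
      le_rfl)
    (L.jet hw0 hw1 hJ le_rfl (Nat.zero_le (K + 2)) D.P1 le_rfl fun _ _ => rfl)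
    (L.jet hw0 hw1 hJ le_rfl (Nat.zero_le (K + 2)) D.P2 le_rfl fun _ _ => rfl) B' hB' hP

end

end Pool.C1V35
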