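import Pool.Agent.H35.C1V.Cve
import Pool.Agent.H57.AVG.C1s

/-!
# The inputs of the closed gradients in a class, all places of the chain moved

`qJa`: digits of a jet over a chart of degree at most one. `VfV`: the heights of the moved places are
full given their velocities. `RwV`: the row of the target given the heights of the moved places.
`CvC`: all the inputs, `CvN`: the numbers.
-/

set_option autoImplicit false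

namespace Pool.C1V35

open Finset Real MvPolynomial
open Pool.Agent.H49.Ent Pool.Agent.H32.Dense Pool.STK Pool.KA Pool.KSAT Pool.K2S Pool.PB Pool.S6C
open Pool.GEN Pool.CHT Pool.RCD Pool.LA91 Pool.AVG96 Pool.AVG57
open Pool.GRD (LbP)

variable {m : ℕ} {γ : ∀ J : ℕ, Fam m J → Type}

/-- **The digits of a jet over a chart of degree at most one.** -/
noncomputable def qJa (m : ℕ) (I : Finset (Fin m)) (k : Fin m) (j : ℕ) (w p N : ℝ) :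
    Qt m ℤ where
  P K e J F A u := (cnt F.p u A : ℝ) ≤ Real.exp (K * J) ∧
    ∃ (V : Type) (z : PtT F → V) (z' : LnT F → V) (G : V → MvPolynomial (Option (Fin m)) ℝ),
      LbP F I k 1 J ⌊w * J⌋₊ ⌊(p - e) * J⌋₊ A z z' G ∧
      ∀ ω, A ω → u ω = ⌊(2 : ℝ) ^ (N * J) * ojet F k j (G (z' (slam F ⌊w * J⌋₊ ω))) ω⌋
  sub := by
    rintro K e J F A B u hB ⟨hc, V, z, z', G, hl, hu⟩
    refine ⟨le_trans ?_ hc, V, z, z', G, hl.sub hB, fun ω hω => hu ω (hB ω hω)⟩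
    exact_mod_cast cnt_mono F.p u hB
  mono := by
    rintro K K' e e' J F A u hK he ⟨hc, V, z, z', G, hl, hu⟩
    refine ⟨hc.trans (Real.exp_le_exp.2 ?_), V, z, z', G, hl.mono (Finset.Subset.refl _) le_rfl
      (Nat.floor_le_floor (mul_le_mul_of_nonneg_right (by linarith) (Nat.cast_nonneg J))), hu⟩
    exact mul_le_mul_of_nonneg_right (by exact_mod_cast hK) (Nat.cast_nonneg J)

/-- **The moved places are full together**: the digits `Nv l 0, …, nb l` of their heights over charts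
of degree at most one of `w`, given their velocities, the records of `w` and `x`, and `y`. -/
def VfV (S : PCl m) (y : ∀ (J : ℕ) (F : Fam m J), F.Ω → γ J F) (c : ℕ → Fin m) (r₀ v : ℕ)
    (w x : ℝ) (p nb : ℕ → ℝ) (Nv : ℕ → ℕ → ℝ) (θ : ℝ) : Prop :=
  ∃ k : ℝ, 0 < k ∧ ∃ e₀ : ℝ, 0 < e₀ ∧ ∀ K : ℕ, Bas S (fun J F A =>
    ∀ (V₁ V₂ : Type) (z : F.Ω → V₁) (zx : F.Ω → V₂),
      Mx (fun J F => ptr F J) (vg w) k F A z → Mx (fun J F => ptr F J) (vg x) k F A zx →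
      ∀ a b d : F.Ω → Fin (v + 1 - r₀) → ℤ,
      (∀ j, (qJa m ((range (mvR r₀ v j)).image c) (c (mvR r₀ v j)) 0 w (p (mvR r₀ v j))
        (Nv (mvR r₀ v j) 0)).P K e₀ J F A (fun ω => a ω j)) →
      (∀ j, (qJa m ((range (mvR r₀ v j)).image c) (c (mvR r₀ v j)) 0 w (p (mvR r₀ v j))
        (nb (mvR r₀ v j))).P K e₀ J F A (fun ω => b ω j)) →
      (∀ j, (qJa m ((range (mvR r₀ v j)).image c) (c (mvR r₀ v j)) 1 w (p (mvR r₀ v j))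
        (Nv (mvR r₀ v j) 1)).P K e₀ J F A (fun ω => d ω j)) →
      ((∑ j, (nb (mvR r₀ v j) - Nv (mvR r₀ v j) 0)) * Real.log 2 - θ) * J ≤
        CH (Pool.Agent.H49.Ent.cond F.p A True) b
          (fun ω => (a ω, (d ω, (zx ω, (z ω, y J F ω))))))

/-- **The row of the target is not full**: the digits `P₁, …, P₂` of its height over labels of `w`,
given the heights of the chain to `nb l` digits, the record of `w` and `y`. -/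
def RwV (S : PCl m) (y : ∀ (J : ℕ) (F : Fam m J), F.Ω → γ J F) (c : ℕ → Fin m) (r₀ v : ℕ)
    (w : ℝ) (p nb : ℕ → ℝ) (P₁ P₂ h δ : ℝ) : Prop :=
  ∀ c₀ : ℝ, 0 < c₀ → ∃ k : ℝ, 0 < k ∧ ∃ e₀ : ℝ, 0 < e₀ ∧ ∀ K : ℕ, Bas S (fun J F A =>
    ∀ (V : Type) (z : F.Ω → V), Mx (fun J F => ptr F J) (vg w) k F A z → ∀ u u₁ u₂,
      (qJets m c r₀ (v + 1) 0 (fun _ _ => w) (fun l _ => p l) (fun l _ => nb l)).P K e₀ J F A u →
      (qJet m ((range (v + 1)).image c) (c (v + 1)) 0 w (p (v + 1)) P₁).P K e₀ J F A u₁ →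
      (qJet m ((range (v + 1)).image c) (c (v + 1)) 0 w (p (v + 1)) P₂).P K e₀ J F A u₂ →
      ∀ B' : F.Ω → Prop, Sub B' A → c₀ * Pe F.p A ≤ Pe F.p B' →
      CH (Pool.Agent.H49.Ent.cond F.p B' True) u₂
        (fun ω => (u₁ ω, (u ω, (z ω, y J F ω)))) ≤
        ((1 - h) * (P₂ - P₁) * Real.log 2 + δ) * J)

/-- **The numbers.** -/
structure CvN (r₀ v : ℕ) (w δW : ℝ) (p s n n' nt : ℕ → ℝ) (qr ξ μ Nd : ℝ) (nb : ℕ → ℝ)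
    (Df Dn Dx Dd : ℕ → ℕ → ℝ) (Ef En : ℕ → ℝ) (Nv : ℕ → ℕ → ℝ) (P₁ P₂ : ℝ) : Prop where
  rv : r₀ ≤ v
  ps : ∀ l ≤ v + 1, 0 ≤ p l ∧ p l ≤ s l
  w0 : 0 ≤ w
  δ0 : 0 < δW
  w1 : w + δW + ξ < 1
  q0 : 0 < qr
  ξ0 : 0 < ξ
  μ0 : 0 < μ
  n0 : ∀ l, r₀ ≤ l → l ≤ v → Dn l 0 < p l + qr
  n1 : ∀ l, r₀ ≤ l → l ≤ v → Dn l 1 + w + δW < p l + qr + ξ + μ
  x0 : ∀ l, r₀ ≤ l → l ≤ v → Dx l 0 < p l + qr
  x1 : ∀ l, r₀ ≤ l → l ≤ v → Dx l 1 + w + δW < p l + qr + ξ + μ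
  u0 : ∀ l, r₀ ≤ l → l ≤ v → nt l < p l + qr
  u1 : ∀ l, r₀ ≤ l → l ≤ v → nt l + δW < p l + qr + ξ + μ
  m0 : En 0 < p (v + 1) + qr
  m1 : En 1 + w + δW < p (v + 1) + qr
  mf : s (v + 1) + qr + ξ ≤ Ef 0
  f0 : ∀ l, r₀ ≤ l → l ≤ v → s l + qr + ξ + μ ≤ Df l 0
  f1 : ∀ l, r₀ ≤ l → l ≤ v → s l + qr + ξ + μ < Df l 1 + w
  v0 : ∀ l, r₀ ≤ l → l ≤ v → s l + qr ≤ Nv l 0
  v1 : ∀ l, r₀ ≤ l → l ≤ v → s l + qr + ξ + μ < Nv l 1 + w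
  b0 : ∀ l, r₀ ≤ l → l ≤ v → s l + qr + ξ ≤ nb l
  b1 : ∀ l, r₀ ≤ l → l ≤ v → nb l < p l + qr + ξ + μ
  b2 : ∀ l, r₀ ≤ l → l ≤ v → Nv l 0 + ξ ≤ nb l
  c0 : ∀ l < r₀, s l + qr + ξ + μ < n l
  c1 : ∀ l < r₀, n l ≤ n' l
  d0 : s (v + 1) + qr + ξ ≤ Nd
  dv : ∀ l, r₀ ≤ l → l ≤ v → ∀ j' ≤ 1, Dd l j' = Df l j'
  r1 : P₁ < p (v + 1) + qr
  r2 : s (v + 1) + qr + ξ ≤ P₂

/-- **The inputs in the class**, with the error `η`. -/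
structure CvC (S : PCl m) (y : ∀ (J : ℕ) (F : Fam m J), F.Ω → γ J F) (c : ℕ → Fin m)
    (r₀ v K : ℕ) (w j x : ℝ) (p n n' nt : ℕ → ℝ) (Nd Nt : ℝ) (nb : ℕ → ℝ)
    (Df Dn Dx Dd : ℕ → ℕ → ℝ) (Ef En : ℕ → ℝ) (Nv : ℕ → ℕ → ℝ) (P₁ P₂ h η : ℝ) : Prop where
  tm : ∃ C₀, TmC S C₀
  wj : w ≤ j
  j1 : j ≤ 1
  wx : w ≤ x
  x1 : x ≤ 1
  yW : ∀ (J : ℕ) (F : Fam m J), ∃ φ : γ J F → F.ζ × ℕ, ∀ ω, φ (y J F ω) = (F.Z ω, F.T ω)
  yf : YfC S y c r₀ w p n n' η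
  y0 : ∀ l < r₀, CdC S y c l K 0 w w (p l) (n l) η (Qt.fn fun _ _ _ => ())
  y1 : ∀ l < r₀, CdC S y c l K 1 w w (p l) (n' l) η (Qt.fn fun _ _ _ => ())
  mj : MIw S (fun J F => ptr F J) y w j
    ((jetQ m c r₀ (v + 1) w p Df).prod (prQ m c (v + 1) w (p (v + 1)) Ef))
    ((jetQ m c r₀ (v + 1) w p Dn).prod (prQ m c (v + 1) w (p (v + 1)) En)) η
  mx : MIw S (fun J F => ptr F J) y w x (jetQ m c r₀ (v + 1) w p Df)
    (jetQ m c r₀ (v + 1) w p Dx) η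
  dj : CdC S y c (v + 1) K 1 w w (p (v + 1)) Nd η (jetQ m c r₀ (v + 1) w p Dd)
  jt : CdC S y c (v + 1) K 0 w x (p (v + 1)) Nt η
    (qJets m c r₀ (v + 1) (K + 2) (fun _ _ => w) (fun l _ => p l) (fun l j' => nt l - (j' : ℝ) * w))
  vf : VfV S y c r₀ v w x p nb Nv η
  row : RwV S y c r₀ v w p nb P₁ P₂ h η

end Pool.C1V35
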